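import Pool.Agent.H72.KE.Exw
import Pool.Agent.H21.KEC.Cov
import Pool.Agent.H33.EXC.ExI
import Pool.Agent.H56.ASM.Sk9

/-!
# Exactness at the windows with one contact coordinate and different slopes

`has_KE`: exactness on the boxes of the kind `KE`. `exB_KE`: exactness at the windows with one
contact coordinate and different slopes of the coordinates of the base, at most four coordinates.
`lEx1_two`, `lEx1_three`: exactness at the windows with one contact coordinate, for two and three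
coordinates.
-/

set_option autoImplicit false

namespace Pool.OWN72

open MeasureTheory Set Filter Topology
open Pool.Agent.H49.Ent Pool.Agent.H32.Dense Pool.STK Pool.KA Pool.KSAT Pool.K2S Pool.PB
open Pool.GEN Pool.S6C Pool.STAT Pool.CHT Pool.GRW Pool.PKG
open Pool.TOP (TopS)
open Pool.STR (NumI Rle)
open Pool.EXC33 (SizE SupE ExwB ZmI)

theorem fzx_zero : FZX 0 := by
  intro ρ al hρ hal g₀ hg₀ s d hs
  refine ⟨1, one_pos, fun K₀ N hN ψ hψ => ⟨1, one_pos, 0, 0, fun J _ G _ _ _ => Or.inr ?_⟩⟩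
  have h1 := CH_nonneg (p := G.p) G.isLaw.nonneg (G.X J) G.W
  refine le_trans ?_ h1
  rw [Fin.sum_univ_zero, zero_sub]
  have hl2 : 0 < Real.log 2 := Real.log_pos one_lt_two
  have : 0 ≤ ρ * Real.log 2 * J := by positivity
  linarith

variable {n : ℕ} {hn : 2 ≤ n} {S : PCl n} {P : ℝ → ℝ → ℝ} {rr : ℝ → ℝ}
  {P' : ℕ → List (Fin n) × Fin n → ℝ → ℝ → ℝ} {Λ : Finset (Fin n) → Fin n → ℝ → ℝ → ℝ}
  {PB : ℕ → List (Fin n) × Fin n → ℝ → ℝ → ℝ}
  (H : PkT hn S P rr P' Λ PB) {hTop : TopS n} {hF : FZX (n - 1)} {ρ' : ℝ → ℝ} {hρ : Rle rr ρ'}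

/-- **Exactness on the boxes of the kind**, at most four coordinates. -/
theorem has_KE (hn4 : n ≤ 4) (hFk : ∀ k, 1 ≤ k → k < n → FZX k) :
    HasK H (KE H hTop hF hρ) (HypV _) := by
  intro p hp κ kd x' x c β h' M hc hβ hK
  have hI : MonoI (IsK p.cell kd c β h' M x') := isK_mono p.cell kd c β h' M x'
  have hbs : ∀ ε q, IsK p.cell kd c β h' M x' ε q → IsBS p.cell c β h' M ε q :=
    isK_sub p.cell kd c β h' M x'
  have hz : ZmI H p (IsK p.cell kd c β h' M x') := by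
    by_cases hne : ∃ (ε : ℝ) (q : BS p.cell), IsK p.cell kd c β h' M x' ε q
    · obtain ⟨ε₁, q₁, hq₁⟩ := hne
      have hA : EA hn S P P' c (show Od n from q₁.k.2) q₁.g := hK.A _ _ hq₁
      have hc1 : c ≤ 1 := by
        have h1 := hA.cg
        have h2 := hA.g1
        linarith
      obtain ⟨al, g₀, hal, hg₀, hE⟩ := supE_KE H hn4 hp hI hc hbs hK
      have hX := exwB_den H hI hc hbs (den_KE H hI hbs hK)
      refine Pool.EXC33.zmI_supE H hn4 hI hbs (fun k hk => ?_) hal hg₀ (by positivity)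
        (by linarith) (by positivity) hE hX
      rcases Nat.eq_zero_or_pos k with rfl | hk0
      · exact fzx_zero
      · exact hFk k hk0 (by omega)
    · exact fun K K' s₁ sh _ _ ka _ M' => ⟨0, fun N _ => ⟨1, one_pos, fun θ _ _ =>
        ⟨1, one_pos, fun q hq => (hne ⟨1, q, hq⟩).elim⟩⟩⟩
  exact ⟨Pool.EXC33.exnK_zoom H hp hc hβ hz, Pool.EXC33.exsK_zoom H hp hc hβ hz⟩

/-- **Exactness at the windows with one contact coordinate and different slopes** of the
coordinates of the base, at most four coordinates. -/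
theorem exB_KE (hTop : TopS n) (hF : FZX (n - 1)) (hρ : Rle rr ρ') (hn4 : n ≤ 4)
    (hFk : ∀ k, 1 ≤ k → k < n → FZX k) (h : ℝ) : ExB H hTop hF hρ h fun o g =>
      OneC n (slo H hTop hF o g) (deriv (fun a => P a a) g) ∧ DiffS hn P P' o g :=
  ⟨Unit, inferInstance, KE H hTop hF hρ, has_KE H hn4 hFk, ke_cov H hTop hF hρ h⟩

/-- **Exactness at the windows with one contact coordinate**, for all packages and rates, from the
windows with a tie in the base. -/
theorem exA_of_tie (hTop : TopS n) (hF : FZX (n - 1)) (hn4 : n ≤ 4)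
    (hFk : ∀ k, 1 ≤ k → k < n → FZX k)
    (hT : ∀ (S : PCl n) (P : ℝ → ℝ → ℝ) (r : ℝ → ℝ)
      (P' : ℕ → List (Fin n) × Fin n → ℝ → ℝ → ℝ) (Λ : Finset (Fin n) → Fin n → ℝ → ℝ → ℝ)
      (PB : ℕ → List (Fin n) × Fin n → ℝ → ℝ → ℝ) (H : PkT hn S P r P' Λ PB) (h : ℝ),
      0 < h → h ≤ 1 → ∀ (ρ : ℝ → ℝ) (hρ : Rle r ρ),
      (∀ᵐ Q : ℝ, deriv ρ Q < 1 → h ≤ 1 - deriv r Q) →
      ExB H hTop hF hρ h fun o g =>
        OneC n (slo H hTop hF o g) (deriv (fun a => P a a) g) ∧ ¬ DiffS hn P P' o g) :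
    ExA hn hTop hF (OneC n) := by
  intro S P r P' Λ PB H h h0 h1 ρ hρ hrow
  refine ((exB_KE H hTop hF hρ hn4 hFk h).or (hT S P r P' Λ PB H h h0 h1 ρ hρ hrow)).mono
    fun o => Eventually.of_forall fun g _ hx => ?_
  by_cases h2 : DiffS hn P P' o g
  · exact Or.inl ⟨hx, h2⟩
  · exact Or.inr ⟨hx, h2⟩

/-- In dimension at most three there are no ties in the base. -/
theorem diffS_three (hn3 : n ≤ 3) (o : Od n) (g : ℝ) : DiffS hn P P' o g := by
  intro k l h1 h2 h3
  omega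

theorem exA_three (hn3 : n ≤ 3) (hTop : TopS n) (hF : FZX (n - 1))
    (hFk : ∀ k, 1 ≤ k → k < n → FZX k) : ExA hn hTop hF (OneC n) := by
  intro S P r P' Λ PB H h h0 h1 ρ hρ hrow
  exact (exB_KE H hTop hF hρ (by omega) hFk h).mono fun o => Eventually.of_forall fun g _ hx =>
    ⟨hx, diffS_three hn3 o g⟩

/-- **`LEx1 2`.** -/
theorem lEx1_two : Pool.ASM.LEx1 2 := fun _ _ hFk hF hTop => exA_three (by norm_num) hTop hF hFk

/-- **`LEx1 3`.** -/
theorem lEx1_three : Pool.ASM.LEx1 3 := fun _ _ hFk hF hTop =>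
  exA_three (by norm_num) hTop hF hFk

end Pool.OWN72
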