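import Pool.Agent.H78.MIC.ClsF
import Pool.Agent.H72.KE.Acf
import Pool.Agent.H72.OWN.RepC
import Pool.Agent.H6.OWN.Ngj
import Pool.Agent.H45.EXA.Exv

/-!
# The numbers of a class at the windows near a good window

`gs_vs`: at a good window the diagonals of the coordinates of the order are the numbers of the
closed labels. `nlw_up`, `nlw_lo1`, `nlw_lo2`, `nlw_tie`: the numbers of the unit balls near it.
-/

set_option autoImplicit false

namespace Pool.OWN72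

open Finset
open Pool.Agent.H49.Ent Pool.Agent.H32.Dense Pool.STK Pool.KA Pool.KSAT Pool.K2S Pool.PB Pool.GEN
open Pool.S6C Pool.GRW Pool.PKG
open Pool.TOP (TopS)
open Pool.CHT
open Pool.LBT (ThrOf)
open Pool.MIC6 (ActF ng_diag ng_id2)

variable {n : ℕ} {hn : 2 ≤ n} {S : PCl n} {P : ℝ → ℝ → ℝ} {rr : ℝ → ℝ}
  {P' : ℕ → List (Fin n) × Fin n → ℝ → ℝ → ℝ} {Λ : Finset (Fin n) → Fin n → ℝ → ℝ → ℝ}

/-- The coordinates of the base of an order. -/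
def epo (hn : 2 ≤ n) (o : Od n) (i : Fin (n - 1)) : Fin n := bse (o.1.1 i)

theorem cc_epo (o : Od n) (i : Fin (n - 1)) : cc hn o.1.1 i = epo hn o i := cc_lt hn _ i.2

theorem cc_inj3 (o : Od n) : Set.InjOn (cc hn o.1.1) (Set.Iio (n - 1)) :=
  (cc_inj hn o.1.1).mono fun x hx => by
    rw [Set.mem_Iio] at hx ⊢
    omega

/-- The precisions of the labels, with the list of the coordinates. -/
theorem vs_img (o : Od n) (w : ℝ) {l : ℕ} (hl : l < n - 1) :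
    vs Λ (epo hn o) w (l + 1) = Λ (img (cc hn o.1.1) l) (cc hn o.1.1 l) w (vs Λ (epo hn o) w l) := by
  have h1 := vs_succ Λ (epo hn o) w ⟨l, hl⟩
  unfold vn at h1
  have h2 := img_eq (cc_epo (hn := hn) o) (⟨l, hl⟩ : Fin (n - 1))
  rw [h2] at h1
  have h3 : cc hn o.1.1 l = epo hn o ⟨l, hl⟩ := cc_epo o ⟨l, hl⟩
  rw [h3]
  exact h1

theorem vn_img (o : Od n) (w : ℝ) {l k : ℕ} (hl : l < n - 1) (hk : k < n - 1) :
    vn Λ (epo hn o) ⟨l, hl⟩ (epo hn o ⟨k, hk⟩) w =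
      Λ (img (cc hn o.1.1) l) (cc hn o.1.1 k) w (vs Λ (epo hn o) w l) := by
  unfold vn
  rw [img_eq (cc_epo (hn := hn) o) (⟨l, hl⟩ : Fin (n - 1))]
  have h3 : cc hn o.1.1 k = epo hn o ⟨k, hk⟩ := cc_epo o ⟨k, hk⟩
  rw [h3]
  rfl

/-- The first coordinate is active. -/
theorem gs_act (H : Pk hn S P rr P' Λ) (o : Od n) : ActF S (cc hn o.1.1 0) := by
  obtain ⟨al, g₀, s, d, e, K₀, N, hal, hg₀, hC⟩ := H.cl
  have h1 : cc hn o.1.1 0 = bse (o.1.1 ⟨0, by omega⟩) := cc_lt hn _ (by omega)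
  rw [h1]
  exact actF_of H.pos hal hg₀ hC.actm (hC.actb _ (o.1.2 _ rfl))

/-- The number of the first coordinate. -/
theorem gs_zero (H : Pk hn S P rr P' Λ) (o : Od n) {w r : ℝ} (hw : 0 ≤ w) (hw1 : w < 1) :
    Λ ∅ (cc hn o.1.1 0) w r = w := by
  obtain ⟨al, g₀, s, d, e, K₀, N, hal, hg₀, hC⟩ := H.cl
  have h1 : cc hn o.1.1 0 = bse (o.1.1 ⟨0, by omega⟩) := cc_lt hn _ (by omega)
  rw [h1]
  exact H.lam.act hC.ne hal (hC.actm.q hg₀) (hC.actb _ (o.1.2 _ rfl)) H.pos hw hw1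

theorem vse_one (H : Pk hn S P rr P' Λ) (o : Od n) {w : ℝ} (hw : 0 ≤ w) (hw1 : w < 1) :
    vs Λ (epo hn o) w 1 = w := by
  have h1 := vs_img (Λ := Λ) (hn := hn) o w (l := 0) (by omega)
  rw [zero_add] at h1
  rw [h1]
  exact gs_zero H o hw hw1

/-- Exactness at a good window. -/
theorem gs_exa (H : Pk hn S P rr P' Λ) (hF : FZX (n - 1)) {o : Od n} {a : ℝ}
    (ha : a ∈ Gs P rr P' Λ o) : VExa S Λ (epo hn o) a := by
  obtain ⟨al, g₀, s, d, e, K₀, N, hal, hg₀, hC⟩ := H.cl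
  obtain ⟨hW, -, -⟩ := ha
  intro ρ hρ
  refine vst_exa hF hC.ne (C₀ := 6) (by norm_num) H.tmc H.lam hal hg₀ hC.actm H.pos
    (bse_inj.comp o.1.1.injective) (fun k hk => hC.actb _ ?_) hW.1.1 hW.1.2.1 hW.1.2.2.1
    hW.1.2.2.2 hρ
  exact o.1.2 k hk

/-- **The diagonals of the coordinates** are the numbers of the closed labels, at a good window. -/
theorem gs_vs (H : Pk hn S P rr P' Λ) (hTop : TopS n) (hF : FZX (n - 1)) {o : Od n} {a : ℝ}
    (ha : a ∈ Gs P rr P' Λ o) {l : ℕ} (hl : l < n - 1) :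
    dgN hn P P' o l a = vs Λ (epo hn o) a (l + 1) := by
  obtain ⟨α, Q, c, F⟩ := H.fac hTop hF ha
  have hθ := tht_pos o.2
  have h1 : dgN hn P P' o l a = bet (P' o.2) (cc hn o.1.1) l a a := by
    unfold dgN
    rw [if_pos hl]
    rfl
  have h2 := F.le l hl a a F.g0 le_rfl F.gα
  have h3 : tht o.2 * a ≤ tht o.2 := mul_le_of_le_one_right hθ.le F.g1.le
  have h4 := F.thc
  have h5 : bet (P' o.2) (cc hn o.1.1) l a a < 1 - tht o.2 * a := by linarith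
  have hex := gs_exa H hF ha
  rw [h1]
  exact bet_eq_vst hθ H.ne (by norm_num) H.tmc H.lam (H.cht o.2)
    (bse_inj.comp o.1.1.injective) (cc_epo o) ha.1 hex hl
    ((bet_lt_iff hθ H.ne (by norm_num) H.tmc H.lam (H.cht o.2)
      (bse_inj.comp o.1.1.injective) (cc_epo o) ha.1 hex hl).1 h5)

/-- **From above.** -/
theorem nlw_up (H : Pk hn S P rr P' Λ) (hTop : TopS n) (hF : FZX (n - 1)) {o : Od n} {a w : ℝ}
    (ha : a ∈ Gs P rr P' Λ o) (hwa : w ≤ a) {l : ℕ} (hl : l < n - 1) :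
    Λ (img (cc hn o.1.1) l) (cc hn o.1.1 l) w 0 ≤ dgN hn P P' o l a := by
  rw [gs_vs H hTop hF ha hl, vs_img o a hl]
  refine H.lam.mono _ _ _ _ _ _ _ (Finset.Subset.refl _) hwa ?_
  have h1 := le_vs H.lam (epo hn o) ha.1.1.2.1.le l
  exact ha.1.1.1.le.trans h1

/-- **From below**, the second coordinate. -/
theorem nlw_lo1 (H : Pk hn S P rr P' Λ) (hTop : TopS n) (hF : FZX (n - 1)) {o : Od n} {a w : ℝ}
    (ha : a ∈ Gs P rr P' Λ o) (haw : a < w) (h2 : 1 < n - 1) :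
    dgN hn P P' o 1 a ≤ Λ {cc hn o.1.1 0} (cc hn o.1.1 1) w 0 := by
  rw [gs_vs H hTop hF ha h2, vs_img o a h2, vse_one H o ha.1.1.1.le ha.1.1.2.1]
  have h1 : img (cc hn o.1.1) 1 = {cc hn o.1.1 0} := by
    unfold img
    simp
  rw [h1]
  exact ng_diag H.ne (by norm_num) H.tmc H.lam (gs_act H o) ha.1.1.1.le haw

/-- **The third coordinate over the first one** is not better than the second one. -/
theorem nlw_tie (H : Pk hn S P rr P' Λ) (hTop : TopS n) (hF : FZX (n - 1)) {o : Od n} {a w : ℝ}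
    (ha : a ∈ Gs P rr P' Λ o) (haw : a < w) (h2 : 2 < n - 1) :
    dgN hn P P' o 1 a ≤ Λ {cc hn o.1.1 0} (cc hn o.1.1 2) w 0 := by
  have h0 := ha.1.1.2.2.1 (⟨1, by omega⟩ : Fin (n - 1)) ⟨2, h2⟩ (by
    show (1 : ℕ) ≤ 2
    omega)
  have h3 : vs Λ (epo hn o) a (1 + 1) ≤ vn Λ (epo hn o) ⟨1, by omega⟩ (epo hn o ⟨2, h2⟩) a := h0
  rw [vn_img, vse_one H o ha.1.1.1.le ha.1.1.2.1] at h3
  rw [gs_vs H hTop hF ha (by omega)]
  have h1 : img (cc hn o.1.1) 1 = {cc hn o.1.1 0} := by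
    unfold img
    simp
  rw [h1] at h3
  exact h3.trans (ng_diag H.ne (by norm_num) H.tmc H.lam (gs_act H o) ha.1.1.1.le haw)

/-- **From below**, the third coordinate. -/
theorem nlw_lo2 (H : Pk hn S P rr P' Λ) (hTop : TopS n) (hF : FZX (n - 1)) {o : Od n} {a w : ℝ}
    (ha : a ∈ Gs P rr P' Λ o) (haw : a < w) (h2 : 2 < n - 1)
    (hcont : ContinuousAt (fun w => Λ {cc hn o.1.1 0} (cc hn o.1.1 1) w 0) w)
    (hUW : w < Λ {cc hn o.1.1 0} (cc hn o.1.1 1) w 0)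
    (hU1 : Λ {cc hn o.1.1 0} (cc hn o.1.1 1) w 0 < 1)
    {a₀ a₁ : ℝ} (ha0 : 0 ≤ a₀) (ha1 : a₀ < a₁)
    (hUa : Λ {cc hn o.1.1 0} (cc hn o.1.1 1) w 0 - w <
      Λ {cc hn o.1.1 0} (cc hn o.1.1 1) a₀ a₀ - a₁) :
    dgN hn P P' o 2 a ≤ Λ {cc hn o.1.1 0, cc hn o.1.1 1} (cc hn o.1.1 2) w 0 := by
  rw [gs_vs H hTop hF ha h2, vs_img o a h2]
  have h1 : img (cc hn o.1.1) 2 = {cc hn o.1.1 0, cc hn o.1.1 1} := by
    unfold img
    rw [show range 2 = {0, 1} from by decide, Finset.image_insert, Finset.image_singleton]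
  rw [h1]
  refine ng_id2 H.ne (by norm_num) H.tmc H.lam (fun h => ?_) (gs_act H o) haw
    (ha.1.1.1.trans haw) hcont hUW hU1 ha0 ha1 hUa
  have := cc_inj' hn o.1.1 (i := 0) (j := 1) (by omega) (by omega) h
  omega

end Pool.OWN72
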