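import Pool.Agent.H78.MIC.BsC
import Pool.Agent.H72.KE.Nlw

/-!
# The kind of the windows with one contact coordinate and different slopes

`EA`, `EF`: the properties of the window and the statements about the box. `KE`: the kind.
-/

set_option autoImplicit false

namespace Pool.OWN72

open MeasureTheory Set Filter Topology
open Pool.Agent.H49.Ent Pool.Agent.H32.Dense Pool.STK Pool.KA Pool.KSAT Pool.K2S Pool.PB
open Pool.GEN Pool.S6C Pool.STAT Pool.CHT Pool.GRW Pool.PKG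
open Pool.TOP (TopS)
open Pool.STR (NumI Rle)
open Pool.JTN (TgP)

variable {n : ℕ} {hn : 2 ≤ n} {S : PCl n} {P : ℝ → ℝ → ℝ} {rr : ℝ → ℝ}
  {P' : ℕ → List (Fin n) × Fin n → ℝ → ℝ → ℝ} {Λ : Finset (Fin n) → Fin n → ℝ → ℝ → ℝ}
  {PB : ℕ → List (Fin n) × Fin n → ℝ → ℝ → ℝ} {ρ' : ℝ → ℝ}

/-- The windows where the numbers of the unit balls are continuous. -/
def Ctw (Λ : Finset (Fin n) → Fin n → ℝ → ℝ → ℝ) : Set ℝ :=
  {w | ∀ (I : Finset (Fin n)) (v : Fin n), ContinuousAt (fun w => Λ I v w 0) w}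

/-- **The properties of a window.** -/
structure EA (hn : 2 ≤ n) (S : PCl n) (P : ℝ → ℝ → ℝ)
    (P' : ℕ → List (Fin n) × Fin n → ℝ → ℝ → ℝ) (c : ℝ) (o : Od n) (g : ℝ) : Prop where
  cg : c ≤ g
  g1 : g + c ≤ 1
  slo : ∀ l, 1 ≤ l → l ≤ n - 1 → 1 + c ≤ slN hn P P' o l g ∧ c * slN hn P P' o l g ≤ 1
  dlo : ∀ l, 1 ≤ l → l ≤ n - 1 → g + c ≤ dgN hn P P' o l g
  gap : ∀ k l, 1 ≤ k → k < l → l < n - 1 → dgN hn P P' o k g + c ≤ dgN hn P P' o l g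
  sld : ∀ k l, 1 ≤ k → k < l → l < n - 1 → c ≤ |slN hn P P' o k g - slN hn P P' o l g|
  sg : ∃ sg : ℝ, sg + c ≤ 1 ∧ ∀ w : ℝ, 0 < w → w ≤ g + c →
    (∀ l < n - 1, bet (P' o.2) (cc hn o.1.1) l w w ≤ sg) ∧ P w w ≤ sg ∧
      (w ∈ Wgc P' o.2 → TgP S (cc hn o.1.1) (n - 1) (P w w) w w sg)

/-- **The statements about the box.** -/
structure EF (hn : 2 ≤ n) (P : ℝ → ℝ → ℝ) (rr : ℝ → ℝ)
    (P' : ℕ → List (Fin n) × Fin n → ℝ → ℝ → ℝ) (Λ : Finset (Fin n) → Fin n → ℝ → ℝ → ℝ)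
    (o : Od n) (g r d : ℝ) : Prop where
  lin : ∀ l ≤ n - 1, ∀ w : ℝ, |w - g| * d ≤ r ^ 2 →
    |dgN hn P P' o l w - dgN hn P P' o l g - slN hn P P' o l g * (w - g)| ≤ d
  den : ∀ x y : ℝ, |x - g| * d ≤ r ^ 2 → |y - g| * d ≤ r ^ 2 → x + d ≤ y →
    ∃ a ∈ Gs P rr P' Λ o ∩ Ctw Λ, x < a ∧ a < y

/-- **The kind.** -/
noncomputable def KE (H : PkT hn S P rr P' Λ PB) (hTop : TopS n) (hF : FZX (n - 1))
    (hρ : Rle rr ρ') : NumI.KndP ((H.nk hTop hF).chg hρ H.up) Unit where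
  A c _ o g := EA hn S P P' c (show Od n from o) g
  Φ _ o g r d := EF hn P rr P' Λ (show Od n from o) g r d
  mono {_ _ _ _ d d'} hd h :=
    ⟨fun l hl w hw => (h.lin l hl w ((mul_le_mul_of_nonneg_left hd (abs_nonneg _)).trans
      hw)).trans hd, fun x y h1 h2 h3 => h.den x y
      ((mul_le_mul_of_nonneg_left hd (abs_nonneg _)).trans h1)
      ((mul_le_mul_of_nonneg_left hd (abs_nonneg _)).trans h2) (by linarith)⟩

/-- The slopes of the coordinates of the base are different. -/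
def DiffS (hn : 2 ≤ n) (P : ℝ → ℝ → ℝ) (P' : ℕ → List (Fin n) × Fin n → ℝ → ℝ → ℝ) (o : Od n)
    (g : ℝ) : Prop :=
  ∀ k l, 1 ≤ k → k < l → l < n - 1 → slN hn P P' o k g ≠ slN hn P P' o l g

end Pool.OWN72
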