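import Pool.Agent.H72.OWN.ExaS

/-!
# The labels of the target near a window

`NrT`: at the windows of a set the target has affine closed labels with a linear precision.
`BxE`: a chain with a target near a window, with the numbers at the windows of a grid.
-/

set_option autoImplicit false

namespace Pool.OWN72

open Finset
open Pool.Agent.H49.Ent Pool.Agent.H32.Dense Pool.STK Pool.KA Pool.KSAT Pool.K2S Pool.PB Pool.GEN
open Pool.S6C Pool.REX Pool.REX83

variable {m : ℕ}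

/-- **The labels of the target** on `[g, g + R]`, linear up to `d`, with slopes up to
`2 ^ (E J)`. -/
structure NrT (S : PCl m) (c : ℕ → Fin m) (n₀ : ℕ) (Wd : Set ℝ) (g R d be DT sT E : ℝ) :
    Prop where
  lab : ∀ w ∈ Wd, g ≤ w → w ≤ g + R →
    HasB S (img c n₀) (c n₀) w (DT + sT * (w - g) - d) E
  slo : 1 + be ≤ sT ∧ sT ≤ 1 / be
  low : g + be ≤ DT

/-- **A chain with a target near a window**, and numbers `Dn j l` at the windows `ϖ + j ζ`. -/
structure BxE (S : PCl m) (L : Finset (Fin m) → Fin m → ℝ → ℝ → ℝ) (c : ℕ → Fin m) (n₀ : ℕ)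
    (Wd : Set ℝ) (g R d be co DT sT E : ℝ) (Dg sl : ℕ → ℝ) (M : ℕ) (ϖ ζ : ℝ)
    (Dn : ℕ → ℕ → ℝ) : Prop where
  nrd : NrD S L c n₀ Wd g R d be co Dg sl
  nrt : NrT S c n₀ Wd g R d be DT sT E
  num : ∀ j ≤ M, ∀ l, 1 ≤ l → l < n₀ → |Dn j l - (Dg l + sl l * (ϖ + j * ζ - g))| ≤ d
  tgt : ∀ j ≤ M, |Dn j n₀ - (DT + sT * (ϖ + j * ζ - g))| ≤ d

end Pool.OWN72
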