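import Pool.Agent.H72.KE.Spe
import Pool.Agent.H40.ISO.Exk

/-!
# Exactness on the own windows of the small boxes of the kind

`den_KE`: the good windows are dense in the small boxes of the kind. `exwB_den`: exactness on the
own windows, from the exactness at the good windows.
-/

set_option autoImplicit false

namespace Pool.OWN72

open MeasureTheory Set Filter Topology
open Pool.Agent.H49.Ent Pool.Agent.H32.Dense Pool.STK Pool.KA Pool.KSAT Pool.K2S Pool.PB
open Pool.GEN Pool.S6C Pool.STAT Pool.CHT Pool.GRW Pool.PKG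
open Pool.TOP (TopS)
open Pool.STR (NumI Rle)
open Pool.EXC33 (SizE SupE ExwB ZmI dnN)

variable {n : ℕ} {hn : 2 ≤ n} {S : PCl n} {P : ℝ → ℝ → ℝ} {rr : ℝ → ℝ}
  {P' : ℕ → List (Fin n) × Fin n → ℝ → ℝ → ℝ} {Λ : Finset (Fin n) → Fin n → ℝ → ℝ → ℝ}
  {PB : ℕ → List (Fin n) × Fin n → ℝ → ℝ → ℝ}
  (H : PkT hn S P rr P' Λ PB) {hTop : TopS n} {hF : FZX (n - 1)} {ρ' : ℝ → ℝ} {hρ : Rle rr ρ'}

/-- The good windows are dense in the small boxes of the kind. -/
theorem den_KE {p : ((H.nk hTop hF).chg hρ H.up).Par} {I : ℝ → BS p.cell → Prop} {c : ℝ}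
    {h' β Mr : ℝ} (hI : MonoI I) (hbs : ∀ ε q, I ε q → IsBS p.cell c β h' Mr ε q)
    (hK : OnK H (KE H hTop hF hρ) p () c I) (e : ℝ) (he : 0 < e) :
    EvP I fun q => ∀ x y : ℝ, q.g ≤ x → x + e * q.r ≤ y → y ≤ q.g + q.r →
      ∃ a ∈ Gs P rr P' Λ (show Od n from q.k.2), x < a ∧ a < y := by
  obtain ⟨e', he'⟩ : ∃ e', e' = min e 1 := ⟨_, rfl⟩
  have h1 : 0 < e' := by rw [he']; exact lt_min he one_pos
  have h2 : e' ≤ e := by rw [he']; exact min_le_left _ _
  have h3 : e' ≤ 1 := by rw [he']; exact min_le_right _ _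
  refine ((hK.Φ e' h1).and hI (EvP.self I one_pos)).mono ?_
  rintro q ⟨hE, hq⟩ x y hx hxy hy
  have hr := (hbs _ _ hq).r0
  have hE' : EF hn P rr P' Λ (show Od n from q.k.2) q.g q.r (e' * q.r) := hE
  have h4 : e' * q.r ≤ e * q.r := mul_le_mul_of_nonneg_right h2 hr.le
  have h5 : 0 < e' * q.r := by positivity
  have key : ∀ z : ℝ, q.g ≤ z → z ≤ q.g + q.r → |z - q.g| * (e' * q.r) ≤ q.r ^ 2 := by
    intro z h6 h7
    rw [abs_of_nonneg (by linarith)]
    calc (z - q.g) * (e' * q.r) ≤ q.r * (1 * q.r) := by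
          refine mul_le_mul (by linarith) ?_ h5.le hr.le
          exact mul_le_mul_of_nonneg_right h3 hr.le
      _ = q.r ^ 2 := by ring
  obtain ⟨a, ha, h8, h9⟩ := hE'.den x y (key x hx (by linarith)) (key y (by linarith) hy)
    (by linarith)
  exact ⟨a, ha.1, h8, h9⟩

include H in
/-- Exactness at a good window, in the numbers of the order. -/
theorem exw_gs {o : Od n} {a : ℝ} (ha : a ∈ Gs P rr P' Λ o) (hTop : TopS n)
    (hF : FZX (n - 1)) {ρ : ℝ} (hρ : 0 < ρ) : Bas S fun J F A =>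
      ExW F A (fun l : Fin (n - 1) => cc hn o.1.1 l) ⌊a * J⌋₊
        (((∑ j : Fin (n - 1), (1 - dgN hn P P' o j a)) - ρ) * Real.log 2 * J) := by
  refine Bas.mono 0 (gs_exa H.toPk hF ha ρ hρ) fun J _ F A hA V z z' hz => ?_
  have h1 := hA V z z' hz
  have h2 : (fun l : Fin (n - 1) => cc hn o.1.1 l) = epo hn o := by
    funext l
    exact cc_epo o l
  have h3 : ∑ j : Fin (n - 1), (1 - dgN hn P P' o j a) =
      ∑ j : Fin (n - 1), (1 - vs Λ (epo hn o) a (j + 1)) :=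
    Finset.sum_congr rfl fun j _ => by rw [gs_vs H.toPk hTop hF ha j.2]
  rw [h3]
  have h4 : (fun (ω : F.Ω) (i : Fin (n - 1)) => F.X J ω (cc hn o.1.1 i)) =
      fun ω j => F.X J ω (epo hn o j) := by
    funext ω i
    rw [cc_epo o i]
  rw [h4]
  exact h1

/-- **Exactness on the own windows** of the small boxes. -/
theorem exwB_den {p : ((H.nk hTop hF).chg hρ H.up).Par} {I : ℝ → BS p.cell → Prop} (hI : MonoI I)
    {c β h' Mr : ℝ} (hc : 0 < c) (hbs : ∀ ε q, I ε q → IsBS p.cell c β h' Mr ε q)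
    (hden : ∀ e : ℝ, 0 < e → EvP I fun q => ∀ x y : ℝ, q.g ≤ x → x + e * q.r ≤ y →
      y ≤ q.g + q.r → ∃ a ∈ Gs P rr P' Λ (show Od n from q.k.2), x < a ∧ a < y) :
    ExwB H p I := by
  intro δ hδ N M hN
  have hn0 : (0 : ℝ) < n := by
    have : 0 < n := by omega
    exact_mod_cast this
  have hNr : (1 : ℝ) ≤ N := by exact_mod_cast hN
  have hM0 : (0 : ℝ) ≤ M := Nat.cast_nonneg M
  have hNM : (0 : ℝ) < N * (M + 4) := by positivity
  obtain ⟨e, he⟩ : ∃ e : ℝ, e = min (c * (δ / (8 * n * (N * (M + 4))))) (1 / (N * (M + 4))) :=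
    ⟨_, rfl⟩
  have he0 : 0 < e := by rw [he]; exact lt_min (by positivity) (by positivity)
  have he1 : e ≤ c * (δ / (8 * n * (N * (M + 4)))) := by rw [he]; exact min_le_left _ _
  have he2 : e ≤ 1 / (N * (M + 4)) := by rw [he]; exact min_le_right _ _
  obtain ⟨ε₀, hε₀⟩ : ∃ ε₀ : ℝ, ε₀ = δ / (16 * n * (N * (M + 4))) := ⟨_, rfl⟩
  have hε00 : 0 < ε₀ := by rw [hε₀]; positivity
  refine ((hden e he0).and hI (EvP.self I hε00)).mono ?_
  rintro q ⟨hd, hq⟩ j hj
  have hbq := hbs _ _ hq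
  obtain ⟨o, ho⟩ : ∃ o : Od n, o = (show Od n from q.k.2) := ⟨_, rfl⟩
  rw [← ho] at hd
  have hr0 := hbq.r0
  obtain ⟨ζ, hζ⟩ : ∃ ζ, ζ = msh q.r N M := ⟨_, rfl⟩
  have hXζ : (N : ℝ) * ((M + 4) * ζ) = q.r := by rw [hζ]; exact msh_mul hN
  have hζe : ζ = q.r / (N * (M + 4)) := by rw [hζ]; rfl
  have hζ0 : 0 < ζ := by rw [hζe]; positivity
  have hMζ : (M + 4) * ζ ≤ q.r := by
    have h1 : 1 * ((M + 4) * ζ) ≤ N * ((M + 4) * ζ) :=
      mul_le_mul_of_nonneg_right hNr (by positivity)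
    linarith
  have hjζ : (j : ℝ) * ζ ≤ M * ζ := mul_le_mul_of_nonneg_right (by exact_mod_cast hj) hζ0.le
  have hjζ0 : 0 ≤ (j : ℝ) * ζ := by positivity
  have heζ : e * q.r ≤ ζ := by
    have h1 : e * q.r ≤ 1 / (N * (M + 4)) * q.r := mul_le_mul_of_nonneg_right he2 hr0.le
    have h2 : 1 / (N * (M + 4)) * q.r = ζ := by rw [hζe]; ring
    linarith
  have heθ : e * q.r ≤ c * (δ * ζ / (8 * n)) := by
    have h1 : e * q.r ≤ c * (δ / (8 * n * (N * (M + 4)))) * q.r :=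
      mul_le_mul_of_nonneg_right he1 hr0.le
    have h2 : c * (δ / (8 * n * (N * (M + 4)))) * q.r = c * (δ * ζ / (8 * n)) := by
      rw [hζe]
      field_simp
    linarith
  have hεθ : ε₀ * q.r = δ * ζ / (16 * n) := by
    rw [hε₀, hζe]
    field_simp
  obtain ⟨w, hw⟩ : ∃ w, w = q.g + j * ζ := ⟨_, rfl⟩
  obtain ⟨a, ha, ha1, ha2⟩ := hd w (w + e * q.r) (by linarith) le_rfl (by linarith)
  have hg0 := hbq.g0
  have hg1 := hbq.g1
  have hcs : (fun l : Fin (n - 1) => (kitN H p 1).kit.cs q l) =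
      fun l : Fin (n - 1) => cc hn o.1.1 l := by
    rw [ho]
    rfl
  have hdn : ∀ l : ℕ, dnN H p N M q j l = dgN hn P P' o l w := by
    intro l
    unfold dnN
    rw [kit_dg H q l, ← ho, ← hζ, ← hw]
  -- the diagonals
  have hdg : ∀ l : ℕ, l < n - 1 → dgN hn P P' o l a ≤ dgN hn P P' o l w + δ * ζ / (4 * n) ∧
      0 ≤ dgN hn P P' o l w := by
    intro l hl
    have e1 : dgN hn P P' o l = p.cell.D q.k.2 (jxI n l) := by
      have h := KitS.dg_base (Kt := kitN H p 1) q hl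
      rw [kit_dg H q l, ← ho] at h
      exact h
    have h1 := hbq.dj (jxI n l)
    have h2 := hbq.cSj (jxI n l)
    have h3 := hbq.S0 (jxI n l)
    have a1 := abs_le.1 (h1 a (by rw [abs_of_nonneg (by linarith)]; linarith))
    have a2 := abs_le.1 (h1 w (by rw [abs_of_nonneg (by linarith)]; linarith))
    rw [e1]
    have h4 : q.Sj (jxI n l) * (a - w) ≤ δ * ζ / (8 * n) := by
      have h5 : q.Sj (jxI n l) * (a - w) ≤ q.Sj (jxI n l) * (c * (δ * ζ / (8 * n))) :=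
        mul_le_mul_of_nonneg_left (by linarith) h3
      have h6 : q.Sj (jxI n l) * (c * (δ * ζ / (8 * n))) =
          (c * q.Sj (jxI n l)) * (δ * ζ / (8 * n)) := by ring
      have h7 : (c * q.Sj (jxI n l)) * (δ * ζ / (8 * n)) ≤ 1 * (δ * ζ / (8 * n)) :=
        mul_le_mul_of_nonneg_right h2 (by positivity)
      linarith
    have h8 : δ * ζ / (4 * n) = δ * ζ / (8 * n) + 2 * (δ * ζ / (16 * n)) := by
      field_simp
      ring
    refine ⟨?_, ?_⟩
    · rw [h8, ← hεθ]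
      have e2 : q.Sj (jxI n l) * (a - w) = q.Sj (jxI n l) * (a - q.g) -
          q.Sj (jxI n l) * (w - q.g) := by ring
      linarith
    · have h9 := (cls_hD H (p := p) q.k.2 (jxI n l)).low (w := w) (by linarith) (by linarith)
      linarith
  have key := exw_gs H ha hTop hF (ρ := δ * ζ / 4) (by positivity)
  rw [hcs]
  have hl2 : Real.log 2 ≤ 1 := by
    have := Real.log_le_sub_one_of_pos (x := 2) (by norm_num)
    linarith
  have hl20 : 0 < Real.log 2 := Real.log_pos one_lt_two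
  have hsum : (((n - 1 : ℕ) : ℝ) * (δ * ζ / (4 * n)) + δ * ζ / 4) * Real.log 2 < δ * ζ := by
    have h1 : ((n - 1 : ℕ) : ℝ) ≤ n := by exact_mod_cast Nat.sub_le n 1
    have h2 : ((n - 1 : ℕ) : ℝ) * (δ * ζ / (4 * n)) ≤ n * (δ * ζ / (4 * n)) :=
      mul_le_mul_of_nonneg_right h1 (by positivity)
    have h3 : (n : ℝ) * (δ * ζ / (4 * n)) = δ * ζ / 4 := by field_simp
    have h4 : 0 < δ * ζ := by positivity
    have h5 : (((n - 1 : ℕ) : ℝ) * (δ * ζ / (4 * n)) + δ * ζ / 4) * Real.log 2 ≤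
        (((n - 1 : ℕ) : ℝ) * (δ * ζ / (4 * n)) + δ * ζ / 4) * 1 :=
      mul_le_mul_of_nonneg_left hl2 (by positivity)
    linarith
  have h9 := exw_win (S := S) (r := n - 1) (eps := fun l : Fin (n - 1) => cc hn o.1.1 l)
    (α := q.g) (ζ := ζ) (a' := a) (i := j) (by linarith) hζ0 (by rw [← hw]; exact ha1)
    (by linarith) (L := fun l => dgN hn P P' o l a) (b := fun l => dnN H p N M q j l)
    (θ := δ * ζ / (4 * n)) (k := δ) (ρ := δ * ζ / 4) (by positivity)
    (fun l hl => by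
      show dgN hn P P' o l a ≤ dnN H p N M q j l + δ * ζ / (4 * n)
      rw [hdn]
      exact (hdg l hl).1) hsum
    (fun l hl => by
      show 0 ≤ dnN H p N M q j l
      rw [hdn]
      exact (hdg l hl).2) key
  rw [← hζ]
  exact h9

end Pool.OWN72
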