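import Pool.Agent.H72.KE.Nlw

/-!
# The diagonal of the active coordinate

`act_all`: it is the window, at all windows where it is small.
-/

set_option autoImplicit false

namespace Pool.OWN72

open Finset
open Pool.Agent.H49.Ent Pool.Agent.H32.Dense Pool.STK Pool.KA Pool.KSAT Pool.K2S Pool.PB Pool.GEN
open Pool.S6C Pool.GRW Pool.PKG
open Pool.TOP (TopS)
open Pool.CHT
open Pool.LBT (ThrOf)

variable {n : ℕ} {hn : 2 ≤ n} {S : PCl n} {P : ℝ → ℝ → ℝ} {rr : ℝ → ℝ}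
  {P' : ℕ → List (Fin n) × Fin n → ℝ → ℝ → ℝ} {Λ : Finset (Fin n) → Fin n → ℝ → ℝ → ℝ}

/-- **The diagonal of the active coordinate** is the window. -/
theorem act_all (H : Pk hn S P rr P' Λ) (hF : FZX (n - 1)) (o : Od n) {b : ℝ} (hb : b ≤ 1)
    (hlt : ∀ w : ℝ, 0 < w → w < b → bet (P' o.2) (cc hn o.1.1) 0 w w < 1 - tht o.2 * w) :
    ∀ w : ℝ, 0 < w → w < b → bet (P' o.2) (cc hn o.1.1) 0 w w = w := by
  obtain ⟨al, g₀, s, d, e, K₀, N, hal, hg₀, hC⟩ := H.cl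
  have hκ : (0 : ℕ) < n - 1 := by omega
  have hact : ∀ w : ℝ, 0 ≤ w → w < 1 → Λ ∅ (bse (⟨0, hκ⟩ : Fin (n - 1))) w w = w :=
    fun w h0 h1 => H.lam.act hC.ne hal (hC.actm.q hg₀) (hC.actb _ rfl) H.pos h0 h1
  obtain ⟨D, hD, hcov⟩ := wp_cover (φ := bse (n := n)) (κ := ⟨0, hκ⟩) H.lam (H.cht o.2) hact
  have hth := tht_pos o.2
  have e0 : cc hn o.1.1 0 = bse (⟨0, hκ⟩ : Fin (n - 1)) := by
    rw [cc_lt hn _ hκ]
    congr 1
    exact Fin.ext (o.1.2 ⟨0, hκ⟩ rfl)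
  -- the windows outside a countable set
  have key : ∀ w : ℝ, 0 < w → w < b → w ∉ D → bet (P' o.2) (cc hn o.1.1) 0 w w = w := by
    intro w hw0 hwb hwD
    have hw1 : w < 1 := hwb.trans_le hb
    obtain ⟨σ, h2, h3⟩ := hcov w hw0 hw1 hwD
    have hσ0 : σ ⟨0, hκ⟩ = ⟨0, hκ⟩ := h3 ⟨0, hκ⟩ rfl
    have e1 : cc hn σ 0 = bse (⟨0, hκ⟩ : Fin (n - 1)) := by
      rw [cc_lt hn _ hκ, hσ0]
    have e2 : bet (P' o.2) (cc hn o.1.1) 0 = bet (P' o.2) (cc hn σ) 0 := by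
      unfold bet
      rw [e0, e1]
      rfl
    have hex : VExa S Λ (bse ∘ σ) w := by
      intro ρ hρ
      refine vst_exa hF hC.ne (C₀ := 6) (by norm_num) H.tmc H.lam hal hg₀ hC.actm H.pos
        (bse_inj.comp σ.injective) (fun k hk => hC.actb _ ?_) h2.1.1 h2.1.2.1 h2.1.2.2.1
        h2.1.2.2.2 hρ
      show ((bse (σ k) : Fin n) : ℕ) = 0
      rw [h3 k hk]
      rfl
    have h1 : vs Λ (bse ∘ σ) w (0 + 1) = w := by
      have h4 := vs_succ Λ (bse ∘ σ) w (⟨0, hκ⟩ : Fin (n - 1))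
      have h5 : (Finset.Iio (⟨0, hκ⟩ : Fin (n - 1))).image (bse ∘ σ) = ∅ := by
        rw [Finset.image_eq_empty]
        ext x
        simp only [Finset.mem_Iio, Finset.notMem_empty, iff_false, not_lt, Fin.le_def]
        exact Nat.zero_le _
      unfold vn at h4
      rw [h5] at h4
      refine h4.trans ?_
      show Λ ∅ (bse (σ ⟨0, hκ⟩)) w w = w
      rw [hσ0]
      exact hact w hw0.le hw1
    have hlt' := hlt w hw0 hwb
    rw [e2] at hlt' ⊢
    have hcε : ∀ i : Fin (n - 1), cc hn σ i = (bse ∘ σ) i := fun i => cc_lt hn _ i.2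
    have h6 := (bet_lt_iff hth hC.ne (C₀ := 6) (by norm_num) H.tmc H.lam (H.cht o.2)
      (bse_inj.comp σ.injective) hcε h2 hex hκ).1 hlt'
    have h7 := bet_eq_vst hth hC.ne (C₀ := 6) (by norm_num) H.tmc H.lam (H.cht o.2)
      (bse_inj.comp σ.injective) hcε h2 hex hκ h6
    exact h7.trans h1
  have hmono : ∀ x y : ℝ, 0 < x → x ≤ y → y < b →
      bet (P' o.2) (cc hn o.1.1) 0 x x ≤ bet (P' o.2) (cc hn o.1.1) 0 y y := by
    intro x y h0 h1 h2
    exact ((H.cht o.2).law _).mono h0.le le_rfl h1 h1 le_rfl (h2.le.trans hb)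
  intro w hw0 hwb
  have hdense : Dense Dᶜ := hD.dense_compl ℝ
  refine le_antisymm ?_ ?_
  · refine le_of_forall_gt_imp_ge_of_dense fun x hx => ?_
    obtain ⟨y, hy, hy1, hy2⟩ := hdense.exists_between (lt_min hx hwb)
    have h1 := hmono w y hw0 hy1.le (hy2.trans_le (min_le_right _ _))
    rw [key y (hw0.trans hy1) (hy2.trans_le (min_le_right _ _)) hy] at h1
    exact h1.trans (hy2.le.trans (min_le_left _ _))
  · refine le_of_forall_lt_imp_le_of_dense fun x hx => ?_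
    obtain ⟨y, hy, hy1, hy2⟩ := hdense.exists_between (max_lt hx hw0)
    have h0 : 0 < y := (le_max_right _ _).trans_lt hy1
    have h1 := hmono y w h0 hy2.le hwb
    rw [key y h0 (hy2.trans hwb) hy] at h1
    exact ((le_max_left _ _).trans hy1.le).trans h1

end Pool.OWN72
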