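import Pool.Agent.H72.KE.Bxs
import Pool.Agent.H72.KE.Act0
import Pool.Agent.H21.KEC.Ntr
import Pool.Agent.H33.EXC.Yre

/-!
# Chains with a target at the small boxes of the kind

`tgt_num`: the number of the additional coordinate, from the labels of the target. `siz_of`: the
sizes of the numbers. `supE_KE`: the chains with a target at the small boxes.
-/

set_option autoImplicit false

namespace Pool.OWN72

open Finset
open Pool.Agent.H49.Ent Pool.Agent.H32.Dense Pool.STK Pool.KA Pool.KSAT Pool.K2S Pool.PB Pool.GEN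
open Pool.S6C Pool.GRW Pool.PKG Pool.STAT
open Pool.TOP (TopS)
open Pool.CHT
open Pool.MIC6 (ActF)
open Pool.EXTC (upI exC)
open Pool.JTN (TgP)
open Pool.STR (NumI Rle)
open Pool.EXC33 (SizE SupE dnN)

variable {n : ℕ} {hn : 2 ≤ n} {S : PCl n} {P : ℝ → ℝ → ℝ} {rr : ℝ → ℝ}
  {P' : ℕ → List (Fin n) × Fin n → ℝ → ℝ → ℝ} {Λ : Finset (Fin n) → Fin n → ℝ → ℝ → ℝ}

theorem tgP_sub {S S' : PCl n} {c : ℕ → Fin n} {r : ℕ} {P₀ a w sg : ℝ}
    (hsub : ∀ (τ : ℝ) (J : ℕ) (F : Fam n J) (A : F.Ω → Prop), S'.St τ J F A → S.St τ J F A)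
    (h : TgP S c r P₀ a w sg) : TgP S' c r P₀ a w sg := by
  intro ε hε
  obtain ⟨K', K₁, h1, h2⟩ := h ε hε
  exact ⟨K', K₁, h1, Bas.sub hsub h2⟩

section

variable {G : Set ℝ} {o : Od n} {c g ρ d : ℝ}

/-- The diagonal of the target. -/
theorem dgN_tar (o : Od n) (w : ℝ) : dgN hn P P' o (n - 1) w = P w w := by
  unfold dgN
  rw [if_neg (lt_irrefl _)]

theorem dgN_bas (o : Od n) {l : ℕ} (hl : l < n - 1) (w : ℝ) :
    dgN hn P P' o l w = bet (P' o.2) (cc hn o.1.1) l w w := by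
  unfold dgN
  rw [if_pos hl]
  rfl

/-- **The number of the additional coordinate** at a window, from below. -/
theorem tgt_num (H : Pk hn S P rr P' Λ) {S' : PCl n} (hne : S'.Ne)
    (hsub : ∀ (τ : ℝ) (J : ℕ) (F : Fam n J) (A : F.Ω → Prop), S'.St τ J F A → S.St τ J F A)
    (h : Nea hn P P' G o c g ρ d) {sg s : ℝ} (hsg : sg < 1)
    (hT : ∀ w : ℝ, 0 < w → w ≤ g + c → w ∈ Wgc P' o.2 →
      TgP S (cc hn o.1.1) (n - 1) (P w w) w w sg)
    {LE : Finset (Fin (n + 1)) → Fin (n + 1) → ℝ → ℝ → ℝ}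
    (hL : LamW (exC S' (cc hn o.1.1 (n - 1)) s) LE) {w : ℝ} (hw : |w - g| < ρ)
    (hs : sg + d < tl hn P P' o g (n - 1) w + s) (hs0 : 0 ≤ s)
    (hs1 : tl hn P P' o g (n - 1) w + d + s ≤ 1) {ε : ℝ} (hε : 0 < ε) :
    ∃ W' r' : ℝ, W' < w ∧ r' < 1 ∧ tl hn P P' o g (n - 1) w - d + s ≤
      LE (upI (img (cc hn o.1.1) (n - 1))) (Fin.last n) W' r' + ε := by
  have hd := h.d0
  have hc := h.c0
  have hc1 := h.c1
  have hcg := h.cg
  have hg1 := h.g1
  obtain ⟨t1, t2, t3, t4, t5, t6⟩ := h.two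
  have hρ := h.ρc
  have hc2 : c ^ 2 ≤ c := by nlinarith
  have hdc : 0 < d / c := by positivity
  have hd8 : d ≤ c / 8 := by
    have : 2 / c * d = 2 * (d / c) := by ring
    linarith
  have hw1 := abs_lt.1 hw
  -- the distance
  obtain ⟨η, hη⟩ : ∃ η : ℝ, η = min (ρ - |w - g|) (min (c * ε)
    (c * (tl hn P P' o g (n - 1) w + s - (sg + d)))) := ⟨_, rfl⟩
  have hη0 : 0 < η := by
    rw [hη]
    exact lt_min (by linarith) (lt_min (by positivity) (mul_pos hc (by linarith)))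
  have hη1 : η ≤ ρ - |w - g| := by rw [hη]; exact min_le_left _ _
  have hη2 : η ≤ c * ε := by rw [hη]; exact (min_le_right _ _).trans (min_le_left _ _)
  have hη3 : η ≤ c * (tl hn P P' o g (n - 1) w + s - (sg + d)) := by
    rw [hη]; exact (min_le_right _ _).trans (min_le_right _ _)
  have hab : w - g ≤ |w - g| := le_abs_self _
  have hab2 : -(w - g) ≤ |w - g| := neg_le_abs _
  obtain ⟨v, hv, hv1, hv2⟩ := H.wgc_den o.2 (w - η) w (by linarith) (by linarith) (by linarith)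
  have hv0 : 0 < v := by linarith
  have hvρ : |v - g| ≤ ρ := by rw [abs_le]; constructor <;> linarith
  have h1 := h.lin (n - 1) le_rfl v hvρ
  rw [dgN_tar] at h1
  have h2 := abs_le.1 h1
  have h3 := h.tl_step (l := n - 1) (by omega) le_rfl hv2.le
  have h4 := h.tl_lo (l := n - 1) (by omega) le_rfl hvρ
  have h5 : (w - v) / c ≤ η / c := div_le_div_of_nonneg_right (by linarith) hc.le
  have h6 : η / c ≤ ε := by rw [div_le_iff₀ hc]; linarith
  have h7 : η / c ≤ tl hn P P' o g (n - 1) w + s - (sg + d) := by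
    rw [div_le_iff₀ hc]; linarith
  have h8 : 0 ≤ (1 + c) * (w - v) := mul_nonneg (by linarith) (by linarith)
  have hvg : v < 1 := by linarith
  obtain ⟨r', hr'⟩ : ∃ r' : ℝ, r' = (1 + max sg v) / 2 := ⟨_, rfl⟩
  have hm : max sg v < 1 := max_lt hsg hvg
  have hm1 : sg ≤ max sg v := le_max_left _ _
  have hm2 : v ≤ max sg v := le_max_right _ _
  have key := Pool.EXT96.num_tgr hne (C₀ := 6)
    (fun τ J F A hτ hA => H.tmc τ J F A hτ (hsub τ J F A hA)) (c := cc hn o.1.1) (r := n - 1)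
    (P₀ := P v v) (w := v) (sg := sg) (s := s) (W := (v + w) / 2) (r' := r') (L := LE)
    (by
      intro x hx y hy hxy
      rw [Set.mem_Iio] at hx hy
      exact cc_inj' hn o.1.1 (i := x) (j := y) (by omega) (by omega) hxy)
    (tgP_sub hsub (hT v hv0 (by linarith) hv)) hL hsg (by linarith) (by linarith) hv0.le
    (by linarith) (by linarith) (by linarith) (by linarith) (by linarith)
  refine ⟨(v + w) / 2, r', by linarith, by linarith, ?_⟩
  have key' : P v v + s ≤ LE (upI (img (cc hn o.1.1) (n - 1))) (Fin.last n) ((v + w) / 2) r' :=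
    key
  linarith

/-- **The sizes of the numbers.** -/
theorem siz_of (h : Nea hn P P' G o c g ρ d) {r ζ sg : ℝ} {M : ℕ} (hr : 0 < r)
    (h4 : 4 * r ≤ ρ) (hrc : 32 * r ≤ c ^ 2) (hζ0 : 0 ≤ ζ) (hζ : M * ζ ≤ r) (hsg : sg + c ≤ 1)
    (hP : ∀ l ≤ n - 1, dgN hn P P' o l (g - 3 * r) ≤ sg)
    (h0 : ∀ w : ℝ, g - 3 * r ≤ w → w ≤ g + r → dgN hn P P' o 0 w = w) :
    ∃ E : ℝ, SizE (fun j l => dgN hn P P' o l (g + j * ζ)) (n - 1) M g ζ (c / 4) E
      (sg - tl hn P P' o g (n - 1) (g - 3 * r) + 2 * d) := by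
  have hd := h.d0
  have hc := h.c0
  have hc1 := h.c1
  have hcg := h.cg
  have hg1 := h.g1
  obtain ⟨t1, t2, t3, t4, t5, t6⟩ := h.two
  have hdc : 0 < d / c := by positivity
  have hd16 : d ≤ c / 64 := by
    have e1 : 8 / c ^ 2 * d = 8 * (d / c) / c := by field_simp
    have e2 : 4 / c * d = 4 * (d / c) := by ring
    have e3 : 2 / c * d = 2 * (d / c) := by ring
    linarith
  have hrc' : r / c ≤ c / 32 := by
    rw [div_le_iff₀ hc]
    have : c / 32 * c = c ^ 2 / 32 := by ring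
    linarith
  have hrr : r ≤ r / c := by
    rw [le_div_iff₀ hc]
    nlinarith
  have hball : ∀ w : ℝ, g - 3 * r ≤ w → w ≤ g + r → |w - g| ≤ ρ := fun w h1 h2 => by
    rw [abs_le]
    constructor <;> linarith
  have hwj : ∀ j ≤ M, g ≤ g + j * ζ ∧ g + j * ζ ≤ g + r := by
    intro j hj
    have h1 : (j : ℝ) * ζ ≤ M * ζ := mul_le_mul_of_nonneg_right (by exact_mod_cast hj) hζ0
    have h2 : 0 ≤ (j : ℝ) * ζ := by positivity
    constructor <;> linarith
  -- a step from the window `g - 3 r`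
  have hstep : ∀ l ≤ n - 1, ∀ w : ℝ, g - 3 * r ≤ w → w ≤ g + r →
      dgN hn P P' o l (g - 3 * r) - 2 * d ≤ dgN hn P P' o l w ∧
      dgN hn P P' o l w ≤ dgN hn P P' o l (g - 3 * r) + 4 * (r / c) + 2 * d := by
    intro l hl w h1 h2
    rcases Nat.eq_zero_or_pos l with rfl | hl0
    · rw [h0 w h1 h2, h0 (g - 3 * r) le_rfl (by linarith)]
      constructor <;> linarith
    · have a1 := abs_le.1 (h.lin l hl w (hball w h1 h2))
      have a2 := abs_le.1 (h.lin l hl (g - 3 * r) (hball _ le_rfl (by linarith)))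
      have a3 := h.tl_step hl0 hl h1
      have a4 : (w - (g - 3 * r)) / c ≤ 4 * (r / c) := by
        rw [← mul_div_assoc]
        exact div_le_div_of_nonneg_right (by linarith) hc.le
      have a5 : 0 ≤ (1 + c) * (w - (g - 3 * r)) := mul_nonneg (by linarith) (by linarith)
      constructor <;> linarith
  have hlow : ∀ j ≤ M, ∀ l, 1 ≤ l → l < n - 1 + 1 → g + j * ζ + c / 4 ≤
      dgN hn P P' o l (g + j * ζ) := by
    intro j hj l h1 h2
    obtain ⟨b1, b2⟩ := hwj j hj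
    have hb := hball _ (by linarith) b2
    have a1 := abs_le.1 (h.lin l (by omega) _ hb)
    have a2 := h.tl_lo h1 (by omega) hb
    linarith
  have hmon : ∀ j ≤ M, ∀ k l, k < l → l < n - 1 → dgN hn P P' o k (g + j * ζ) ≤
      dgN hn P P' o l (g + j * ζ) := by
    intro j hj k l hkl hl
    obtain ⟨b1, b2⟩ := hwj j hj
    have hb := hball _ (by linarith) b2
    rcases Nat.eq_zero_or_pos k with rfl | hk0
    · rw [h0 _ (by linarith) b2]
      have := hlow j hj l (by omega) (by omega)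
      linarith
    · have a1 := abs_le.1 (h.lin l (by omega) _ hb)
      have a2 := abs_le.1 (h.lin k (by omega) _ hb)
      have a3 := h.tl_gap hk0 hkl hl hb
      linarith
  obtain ⟨X, hX⟩ : ∃ X, X = dgN hn P P' o (n - 1 - 1) (g - 3 * r) := ⟨_, rfl⟩
  obtain ⟨Y, hY⟩ : ∃ Y, Y = dgN hn P P' o (n - 1) (g - 3 * r) := ⟨_, rfl⟩
  have hXs : X ≤ sg := by rw [hX]; exact hP _ (by omega)
  have hYs : Y ≤ sg := by rw [hY]; exact hP _ le_rfl
  have hYt := abs_le.1 (h.lin (n - 1) le_rfl (g - 3 * r) (hball _ le_rfl (by linarith)))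
  rw [← hY] at hYt
  have hmX : X ≤ max X Y := le_max_left _ _
  have hmY : Y ≤ max X Y := le_max_right _ _
  have hms : max X Y ≤ sg := max_le hXs hYs
  have hrc0 : 0 < r / c := by positivity
  refine ⟨sg - max X Y + 4 * (r / c) + 7 * d, ?_, by linarith, ?_, hlow, hmon, ?_, ?_⟩
  · linarith
  · intro j hj
    obtain ⟨b1, b2⟩ := hwj j hj
    exact h0 _ (by linarith) b2
  · intro j hj l hl
    obtain ⟨b1, b2⟩ := hwj j hj
    have hle : dgN hn P P' o l (g + j * ζ) ≤ max X Y + 4 * (r / c) + 2 * d := by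
      rcases Nat.lt_or_ge l (n - 1) with hl1 | hl1
      · have a1 : dgN hn P P' o l (g + j * ζ) ≤ dgN hn P P' o (n - 1 - 1) (g + j * ζ) := by
          rcases Nat.lt_or_ge l (n - 1 - 1) with hl2 | hl2
          · exact hmon j hj l (n - 1 - 1) hl2 (by omega)
          · have : l = n - 1 - 1 := by omega
            rw [this]
        have a2 := (hstep (n - 1 - 1) (by omega) _ (by linarith) b2).2
        rw [← hX] at a2
        linarith
      · have : l = n - 1 := by omega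
        subst this
        have a2 := (hstep (n - 1) le_rfl _ (by linarith) b2).2
        rw [← hY] at a2
        linarith
    show dgN hn P P' o l (g + j * ζ) + (sg - max X Y + 4 * (r / c) + 7 * d) + c / 4 ≤ 1
    linarith
  · intro j hj
    obtain ⟨b1, b2⟩ := hwj j hj
    have a1 := (hstep (n - 1 - 1) (by omega) _ (by linarith) b2).1
    have a2 := (hstep (n - 1) le_rfl _ (by linarith) b2).2
    rw [← hX] at a1
    rw [← hY] at a2
    show sg - tl hn P P' o g (n - 1) (g - 3 * r) + 2 * d ≤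
      sg - max X Y + 4 * (r / c) + 7 * d + max 0 (dgN hn P P' o (n - 1 - 1) (g + j * ζ) -
        dgN hn P P' o (n - 1) (g + j * ζ))
    rcases le_total X Y with hXY | hXY
    · have e1 := le_max_left (0 : ℝ) (dgN hn P P' o (n - 1 - 1) (g + j * ζ) -
        dgN hn P P' o (n - 1) (g + j * ζ))
      rw [max_eq_right hXY]
      linarith
    · have e1 := le_max_right (0 : ℝ) (dgN hn P P' o (n - 1 - 1) (g + j * ζ) -
        dgN hn P P' o (n - 1) (g + j * ζ))
      rw [max_eq_left hXY]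
      linarith

/-- The facts near the window of a box of the kind. -/
theorem nea_of (hA : EA hn S P P' c o g) {r e K : ℝ} (hE : EF hn P rr P' Λ o g r (e * r))
    (hc : 0 < c) (hr : 0 < r) (he : 0 < e) (hK : 0 < K) (heK : K * e ≤ 1)
    (hrc : 8 * (K * r) ≤ c ^ 2) (hec : 16 * e ≤ c ^ 2 * K) :
    Nea hn P P' (Gs P rr P' Λ o ∩ Ctw Λ) o c g (K * r) (e * r) := by
  obtain ⟨sg, hs1, hs2⟩ := hA.sg
  have hcg := hA.cg
  have hg1 := hA.g1
  have hw : ∀ w : ℝ, |w - g| ≤ K * r → |w - g| * (e * r) ≤ r ^ 2 := by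
    intro w hw
    calc |w - g| * (e * r) ≤ K * r * (e * r) := mul_le_mul_of_nonneg_right hw (by positivity)
      _ = K * e * r ^ 2 := by ring
      _ ≤ 1 * r ^ 2 := mul_le_mul_of_nonneg_right heK (by positivity)
      _ = r ^ 2 := one_mul _
  refine ⟨by positivity, hc, by linarith, hcg, hg1, hA.slo, hA.dlo, ?_, hA.gap, hA.sld, ?_, ?_,
    hrc, ?_⟩
  · intro l h1 h2
    obtain ⟨h3, h4, -⟩ := hs2 g (by linarith) (by linarith)
    rcases Nat.lt_or_ge l (n - 1) with h5 | h5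
    · rw [dgN_bas o h5]
      linarith [h3 l h5]
    · have : l = n - 1 := by omega
      subst this
      rw [dgN_tar]
      linarith
  · intro x y h1 h2 h3
    exact hE.den x y (hw x h1) (hw y h2) h3
  · intro l hl w h1
    unfold tl
    rw [sub_add_eq_sub_sub]
    exact hE.lin l hl w (hw w h1)
  · calc 16 * (e * r) = 16 * e * r := by ring
      _ ≤ c ^ 2 * K * r := mul_le_mul_of_nonneg_right hec hr.le
      _ = c ^ 2 * (K * r) := by ring

end

section

variable {PB : ℕ → List (Fin n) × Fin n → ℝ → ℝ → ℝ}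

/-- **Chains with a target at the small boxes** of the kind. -/
theorem supE_KE (H : PkT hn S P rr P' Λ PB) {hTop : TopS n} {hF : FZX (n - 1)} {ρ' : ℝ → ℝ}
    {hρ : Rle rr ρ'} (hn4 : n ≤ 4) {p : ((H.nk hTop hF).chg hρ H.up).Par} (hp : AdP H p)
    {I : ℝ → BS p.cell → Prop} (hI : MonoI I) {c β h' Mr : ℝ} (hc : 0 < c)
    (hbs : ∀ ε q, I ε q → IsBS p.cell c β h' Mr ε q)
    (hK : OnK H (KE H hTop hF hρ) p () c I) :
    ∃ (al : ℝ) (g₀ : ℝ → ℝ), 0 < al ∧ (∀ e, 0 < e → 0 < g₀ e) ∧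
      SupE H p I al g₀ (c / 2) (c / 4) := by
  obtain ⟨al, g₀, s', d', e', K₀, N', hal, hg₀, hC⟩ := H.toPk.cl
  refine ⟨al, g₀, hal, hg₀, ?_⟩
  intro K₂ δ₂ hK₂ hδ₂ N M hN
  have hNr : (1 : ℝ) ≤ N := by exact_mod_cast hN
  have hM0 : (0 : ℝ) ≤ M := Nat.cast_nonneg M
  have hNM : (0 : ℝ) < N * (M + 4) := by positivity
  obtain ⟨K', hK'⟩ : ∃ K', K' = K₂ + 6 := ⟨_, rfl⟩
  have hK'0 : 0 < K' := by rw [hK']; linarith
  obtain ⟨e, he⟩ : ∃ e : ℝ, e = min (min (1 / K') (c ^ 3 / 38)) (min (c ^ 2 / 16)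
    (δ₂ * c ^ 2 / (8 * (N * (M + 4))))) := ⟨_, rfl⟩
  have he0 : 0 < e := by
    rw [he]
    refine lt_min (lt_min (by positivity) (by positivity)) (lt_min (by positivity) (by positivity))
  have he1 : e ≤ 1 / K' := by rw [he]; exact (min_le_left _ _).trans (min_le_left _ _)
  have he2 : e ≤ c ^ 3 / 38 := by rw [he]; exact (min_le_left _ _).trans (min_le_right _ _)
  have he3 : e ≤ c ^ 2 / 16 := by rw [he]; exact (min_le_right _ _).trans (min_le_left _ _)
  have he4 : e ≤ δ₂ * c ^ 2 / (8 * (N * (M + 4))) := by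
    rw [he]; exact (min_le_right _ _).trans (min_le_right _ _)
  obtain ⟨ε₀, hε₀⟩ : ∃ ε₀ : ℝ, ε₀ = c ^ 2 / (8 * K') := ⟨_, rfl⟩
  have hε00 : 0 < ε₀ := by rw [hε₀]; positivity
  refine ((hK.Φ e he0).and hI (EvP.self I hε00)).mono ?_
  rintro q ⟨hE, hq⟩ S' hne hsub
  have hbq := hbs _ _ hq
  have hA : EA hn S P P' c (show Od n from q.k.2) q.g := hK.A _ q hq
  have hE' : EF hn P rr P' Λ (show Od n from q.k.2) q.g q.r (e * q.r) := hE
  obtain ⟨sgI, hchi⟩ := hp c (q.k.1, q.k.2) q.Q q.g q.r hbq.ad.2.2.2.2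
  obtain ⟨o, ho⟩ : ∃ o : Od n, o = (show Od n from q.k.2) := ⟨_, rfl⟩
  obtain ⟨g, hg⟩ : ∃ g, g = q.g := ⟨_, rfl⟩
  obtain ⟨r, hr⟩ : ∃ r, r = q.r := ⟨_, rfl⟩
  have hchi' : Pool.ISO.ChI S (P' o.2) (tht o.2) (cc hn o.1.1) (n - 1) P (Wgc P' o.2) sgI c g r := by
    rw [ho, hg, hr]
    exact hchi
  rw [← ho, ← hg, ← hr] at hE'
  rw [← ho, ← hg] at hA
  have hr0 : 0 < r := by rw [hr]; exact hbq.r0
  have hrε : r ≤ ε₀ := by rw [hr]; exact hbq.rε
  have hg8 : 8 * r < g := by rw [hr, hg]; exact hbq.g0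
  have hg18 : 8 * r < 1 - g := by rw [hr, hg]; exact hbq.g1
  have hK'r : 8 * (K' * r) ≤ c ^ 2 := by
    have h1 : 8 * K' * r ≤ 8 * K' * ε₀ := mul_le_mul_of_nonneg_left hrε (by positivity)
    have h2 : 8 * K' * ε₀ = c ^ 2 := by rw [hε₀]; field_simp
    linarith
  have hK'1 : 6 * r ≤ K' * r := mul_le_mul_of_nonneg_right (by rw [hK']; linarith) hr0.le
  have heK : K' * e ≤ 1 := by
    have h1 : K' * e ≤ K' * (1 / K') := mul_le_mul_of_nonneg_left he1 hK'0.le
    have h2 : K' * (1 / K') = 1 := by field_simp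
    linarith
  have hcg := hA.cg
  have hg1 := hA.g1
  have hc1 : c ≤ 1 := by linarith
  have hc2 : 0 < c ^ 2 := by positivity
  have hec : 16 * e ≤ c ^ 2 * K' := by
    have h1 : c ^ 2 * 6 ≤ c ^ 2 * K' := mul_le_mul_of_nonneg_left (by rw [hK']; linarith) hc2.le
    linarith
  have hN' := nea_of hA hE' hc hr0 he0 hK'0 heK hK'r hec
  obtain ⟨sg, hs1, hs2⟩ := hA.sg
  obtain ⟨t1, t2, t3, t4, t5, t6⟩ := hN'.two
  obtain ⟨d, hd⟩ : ∃ d, d = e * r := ⟨_, rfl⟩
  rw [← hd] at hN' hE' t1 t2 t3 t4 t5 t6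
  have hd0 := hN'.d0
  obtain ⟨ζ, hζ⟩ : ∃ ζ, ζ = msh q.r N M := ⟨_, rfl⟩
  have hXζ : (N : ℝ) * ((M + 4) * ζ) = r := by rw [hζ, hr]; exact msh_mul hN
  have hζ0 : 0 < ζ := by
    rw [hζ]
    unfold msh
    rw [← hr]
    positivity
  have hMζ : M * ζ ≤ r := by
    have h1 : 1 * ((M + 4) * ζ) ≤ N * ((M + 4) * ζ) :=
      mul_le_mul_of_nonneg_right hNr (by positivity)
    linarith
  -- the first coordinate
  have hθ : 0 < tht o.2 := tht_pos o.2
  have hact := act_all H.toPk hF o (b := g + 8 * r) (by linarith) (fun w h1 h2 => by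
    have h3 := hchi'.bd 0 (by omega) w h1 h2.le
    have h4 := hchi'.sgθ
    have h5 : tht o.2 * w ≤ tht o.2 * 1 := mul_le_mul_of_nonneg_left (by linarith) hθ.le
    linarith)
  have h0 : ∀ w : ℝ, g - 3 * r ≤ w → w ≤ g + r → dgN hn P P' o 0 w = w := by
    intro w h1 h2
    rw [dgN_bas o (by omega)]
    exact hact w (by linarith) (by linarith)
  have hsgd : ∀ l ≤ n - 1, dgN hn P P' o l (g - 3 * r) ≤ sg := by
    intro l hl
    obtain ⟨h3, h4, -⟩ := hs2 (g - 3 * r) (by linarith) (by linarith)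
    rcases Nat.lt_or_ge l (n - 1) with h5 | h5
    · rw [dgN_bas o h5]
      exact h3 l h5
    · have : l = n - 1 := by omega
      subst this
      rw [dgN_tar]
      exact h4
  obtain ⟨E, hsz⟩ := siz_of hN' hr0 (by linarith) (by linarith) hζ0.le hMζ hs1 hsgd h0
  obtain ⟨s, hs⟩ : ∃ s, s = sg - tl hn P P' o g (n - 1) (g - 3 * r) + 2 * d := ⟨_, rfl⟩
  rw [← hs] at hsz
  have hball : ∀ w : ℝ, g - 3 * r ≤ w → w ≤ g + (K₂ + 5) * r → |w - g| < K' * r := by
    intro w h1 h2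
    have h3 : 0 < K₂ * r := by positivity
    have e1 : K' * r = K₂ * r + 6 * r := by rw [hK']; ring
    have e2 : (K₂ + 5) * r = K₂ * r + 5 * r := by ring
    rw [abs_lt]
    constructor <;> linarith
  have hs0 : d ≤ s := by
    have h1 := abs_le.1 (hN'.lin (n - 1) le_rfl (g - 3 * r) (hball _ le_rfl (by
      have : 0 < K₂ * r := by positivity
      have e2 : (K₂ + 5) * r = K₂ * r + 5 * r := by ring
      linarith)).le)
    have h2 := hsgd (n - 1) le_rfl
    linarith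
  have h8 : 8 / c ^ 2 * d ≤ 2 * r := by
    have h1 : 8 / c ^ 2 * e ≤ 8 / c ^ 2 * (c ^ 2 / 16) :=
      mul_le_mul_of_nonneg_left he3 (by positivity)
    have h2 : 8 / c ^ 2 * (c ^ 2 / 16) = 1 / 2 := by field_simp; norm_num
    have h3 : 8 / c ^ 2 * d = 8 / c ^ 2 * e * r := by rw [hd]; ring
    have h4 : 8 / c ^ 2 * e * r ≤ 1 / 2 * r := mul_le_mul_of_nonneg_right (by linarith) hr0.le
    linarith
  have h19 : 2 * (19 / c ^ 3 * d) ≤ r := by
    have h1 : 19 / c ^ 3 * e ≤ 19 / c ^ 3 * (c ^ 3 / 38) :=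
      mul_le_mul_of_nonneg_left he2 (by positivity)
    have h2 : 19 / c ^ 3 * (c ^ 3 / 38) = 1 / 2 := by field_simp; norm_num
    have h3 : 19 / c ^ 3 * d = 19 / c ^ 3 * e * r := by rw [hd]; ring
    have h4 : 19 / c ^ 3 * e * r ≤ 1 / 2 * r := mul_le_mul_of_nonneg_right (by linarith) hr0.le
    linarith
  have hKr : (K₂ + 4) * r + 8 / c ^ 2 * d ≤ K' * r := by
    have e1 : K' * r = (K₂ + 4) * r + 2 * r := by rw [hK']; ring
    linarith
  have hcr : (K₂ + 4) * r / c ≤ c / 8 := by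
    rw [div_le_iff₀ hc]
    have e1 : K' * r = (K₂ + 4) * r + 2 * r := by rw [hK']; ring
    have e2 : c / 8 * c = c ^ 2 / 8 := by ring
    rw [e2]
    linarith
  have hd16 : d ≤ c / 64 := by
    have hdc : 0 < d / c := by positivity
    have e1 : 4 / c * d = 4 * (d / c) := by ring
    have e3 : 2 / c * d = 2 * (d / c) := by ring
    linarith
  obtain ⟨S₁, Wd, b1, b2, b3⟩ := bx_ex H.toPk hTop hF hn4 hne hsub hN' hr0 hK₂.le hKr h19 (M := M)
    hζ0.le hMζ (s := s) (by linarith) (fun S'' c1 c2 LE c3 w w1 w2 ε hε => by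
      have e2 : (K₂ + 5) * r = K₂ * r + 5 * r := by ring
      have e3 : (K₂ + 1) * r = K₂ * r + r := by ring
      have h3 := hN'.tl_step (l := n - 1) (by omega) le_rfl w1.le
      have h4 : (w - (g - 3 * r)) / c ≤ (K₂ + 4) * r / c := by
        refine div_le_div_of_nonneg_right ?_ hc.le
        have e4 : (K₂ + 4) * r = K₂ * r + 4 * r := by ring
        linarith
      have h5 : 0 < (1 + c) * (w - (g - 3 * r)) := mul_pos (by linarith) (by linarith)
      refine tgt_num H.toPk c1 (fun τ J F A hA => hsub τ J F A (c2 τ J F A hA)) hN'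
        (sg := sg) (by linarith) (fun w a1 a2 a3 => (hs2 w a1 a2).2.2 a3) c3
        (hball w w1.le (by linarith)) ?_ (by linarith) ?_ hε
      · rw [hs]
        linarith
      · rw [hs]
        linarith)
  have hS₁ : ∀ (τ : ℝ) (J : ℕ) (F : Fam n J) (A : F.Ω → Prop), S₁.St τ J F A → S.St τ J F A :=
    fun τ J F A hA => hsub τ J F A (b2 τ J F A hA)
  have hdn : ∀ j l : ℕ, dnN H p N M q j l = dgN hn P P' o l (g + j * ζ) := by
    intro j l
    unfold dnN
    rw [kit_dg H q l, ← ho, ← hg, ← hζ]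
  have hdn' : dnN H p N M q = fun (j l : ℕ) => dgN hn P P' o l (g + (j : ℝ) * ζ) := by
    funext j l
    exact hdn j l
  have hcs : (kitN H p 1).kit.cs q = cc hn o.1.1 := by rw [ho]; rfl
  refine ⟨S₁, 6, Λ, _, E, s, Wd, g - 2 * r, (K₂ + 2) * r, 8 / c ^ 2 * d,
    tl hn P P' o g (n - 1) (g - 2 * r), slN hn P P' o (n - 1) g,
    fun l => tl hn P P' o g l (g - 2 * r), fun l => slN hn P P' o l g, b1, b2, by norm_num,
    fun τ J F A hτ hA => H.toPk.tmc τ J F A hτ (hS₁ τ J F A hA), H.toPk.lam.sub hS₁, hC.actm, ?_,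
    ?_, ?_, by positivity, ?_, ?_, ?_, ?_⟩
  · rw [hcs]
    have h1 : cc hn o.1.1 0 = bse (o.1.1 ⟨0, by omega⟩) := cc_lt hn _ (by omega)
    rw [h1]
    have h2 : ActB _ S (bse (o.1.1 ⟨0, by omega⟩)) := hC.actb _ (o.1.2 _ rfl)
    intro a b h3 h4 h5 ε h6
    exact Bas.sub hS₁ (h2 a b h3 h4 h5 ε h6)
  · rw [hcs]
    intro w h1 h2
    exact (gs_zero H.toPk o h1 h2).le
  · rw [hcs, hdn', ← hζ, ← hg]
    exact b3
  · rw [← hζ]
    have h1 : 8 / c ^ 2 * e ≤ 8 / c ^ 2 * (δ₂ * c ^ 2 / (8 * (N * (M + 4)))) :=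
      mul_le_mul_of_nonneg_left he4 (by positivity)
    have h2 : 8 / c ^ 2 * (δ₂ * c ^ 2 / (8 * (N * (M + 4)))) = δ₂ / (N * (M + 4)) := by
      field_simp
    have h3 : 8 / c ^ 2 * d = 8 / c ^ 2 * e * r := by rw [hd]; ring
    have h4 : 8 / c ^ 2 * e * r ≤ δ₂ / (N * (M + 4)) * r :=
      mul_le_mul_of_nonneg_right (by linarith) hr0.le
    have h5 : δ₂ / (N * (M + 4)) * r = δ₂ * ζ := by
      rw [hζ]
      unfold msh
      rw [← hr]
      ring
    linarith
  · rw [← hr, ← hg]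
    linarith
  · rw [← hr, ← hg]
    have e1 : (K₂ + 2) * r = K₂ * r + 2 * r := by ring
    linarith
  · rw [hdn', ← hζ, ← hg]
    exact hsz

end

end Pool.OWN72
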