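import Pool.Agent.H72.KE.Lbt
import Pool.Agent.H72.KE.Nrt
import Pool.Agent.H33.EXC.Zrk

/-!
# A chain with a target near a window, in a subclass

`bx_ex`: `BxE` in a subclass, from the facts near the window.
-/

set_option autoImplicit false

namespace Pool.OWN72

open Finset
open Pool.Agent.H49.Ent Pool.Agent.H32.Dense Pool.STK Pool.KA Pool.KSAT Pool.K2S Pool.PB Pool.GEN
open Pool.S6C Pool.GRW Pool.PKG
open Pool.TOP (TopS)
open Pool.CHT
open Pool.MIC6 (ActF)
open Pool.EXTC (upI exC)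
open Pool.JTN (TgP)

variable {n : ℕ} {hn : 2 ≤ n} {S : PCl n} {P : ℝ → ℝ → ℝ} {rr : ℝ → ℝ}
  {P' : ℕ → List (Fin n) × Fin n → ℝ → ℝ → ℝ} {Λ : Finset (Fin n) → Fin n → ℝ → ℝ → ℝ}
  {o : Od n} {c g ρ d : ℝ}

/-- **A chain with a target near a window.** -/
theorem bx_ex (H : Pk hn S P rr P' Λ) (hTop : TopS n) (hF : FZX (n - 1)) (hn4 : n ≤ 4)
    {S' : PCl n} (hne : S'.Ne)
    (hsub : ∀ (τ : ℝ) (J : ℕ) (F : Fam n J) (A : F.Ω → Prop), S'.St τ J F A → S.St τ J F A)
    (h : Nea hn P P' (Gs P rr P' Λ o ∩ Ctw Λ) o c g ρ d) {r K ζ : ℝ} (hr : 0 < r) (hK : 0 ≤ K)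
    (hKρ : (K + 4) * r + 8 / c ^ 2 * d ≤ ρ) (hdr : 2 * (19 / c ^ 3 * d) ≤ r) {M : ℕ}
    (hζ0 : 0 ≤ ζ) (hζ : M * ζ ≤ r) {s : ℝ} (hs : 0 ≤ s)
    (hN : ∀ S'' : PCl n, S''.Ne →
      (∀ (τ : ℝ) (J : ℕ) (F : Fam n J) (A : F.Ω → Prop), S''.St τ J F A → S'.St τ J F A) →
      ∀ LE : Finset (Fin (n + 1)) → Fin (n + 1) → ℝ → ℝ → ℝ,
        LamW (exC S'' (cc hn o.1.1 (n - 1)) s) LE → ∀ w, g - 3 * r < w → w ≤ g + (K + 1) * r →
        ∀ ε : ℝ, 0 < ε → ∃ W' r' : ℝ, W' < w ∧ r' < 1 ∧ tl hn P P' o g (n - 1) w - d + s ≤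
          LE (upI (img (cc hn o.1.1) (n - 1))) (Fin.last n) W' r' + ε) :
    ∃ (S₁ : PCl n) (Wd : Set ℝ), S₁.Ne ∧
      (∀ (τ : ℝ) (J : ℕ) (F : Fam n J) (A : F.Ω → Prop), S₁.St τ J F A → S'.St τ J F A) ∧
      BxE S₁ Λ (cc hn o.1.1) (n - 1) Wd (g - 2 * r) ((K + 2) * r) (8 / c ^ 2 * d) (c / 2) (c / 4)
        (tl hn P P' o g (n - 1) (g - 2 * r)) (slN hn P P' o (n - 1) g) s
        (fun l => tl hn P P' o g l (g - 2 * r)) (fun l => slN hn P P' o l g) M g ζ
        (fun j l => dgN hn P P' o l (g + j * ζ)) := by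
  have hd := h.d0
  have hc := h.c0
  have hc1 := h.c1
  obtain ⟨t1, t2, t3, t4, t5, t6⟩ := h.two
  have hdc : 0 < d / c := by positivity
  have hκd : d ≤ 8 / c ^ 2 * d := by
    have e8 : 4 / c * d = 4 * (d / c) := by ring
    have e9 : 2 / c * d = d / c + d / c := by ring
    linarith
  have hκ0 : 0 < 8 / c ^ 2 * d := by positivity
  have h' : Nea hn P P' (Gs P rr P' Λ o) o c g ρ d := h.big Set.inter_subset_left
  have hKr : (K + 4) * r = K * r + 4 * r := by ring
  have hK2 : (K + 2) * r = K * r + 2 * r := by ring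
  have hK1 : (K + 1) * r = K * r + r := by ring
  have hKr0 : 0 ≤ K * r := mul_nonneg hK hr.le
  -- the windows
  have hball : ∀ w, g - 3 * r ≤ w → w ≤ g + (K + 1) * r → |w - g| + 8 / c ^ 2 * d ≤ ρ := by
    intro w h1 h2
    have : |w - g| ≤ (K + 4) * r := by rw [abs_le]; constructor <;> linarith
    linarith
  obtain ⟨Wt, hWt1, hWt2, hWt3⟩ := wd_ex h.den
  obtain ⟨Wd, hWd⟩ : ∃ Wd : Set ℝ, Wd = Wt ∩ Set.Ioc (g - 3 * r) (g + (K + 1) * r) := ⟨_, rfl⟩
  have hW1 : Wd ⊆ Gs P rr P' Λ o ∩ Ctw Λ := fun w hw => hWt1 (by rw [hWd] at hw; exact hw.1)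
  have hW2 : Wd.Countable := by
    rw [hWd]
    exact hWt2.mono Set.inter_subset_left
  have hW3 : ∀ w ∈ Wd, g - 3 * r < w ∧ w ≤ g + (K + 1) * r := fun w hw => by
    rw [hWd] at hw
    exact hw.2
  have hW4 : ∀ w ∈ Wd, |w - g| + 8 / c ^ 2 * d ≤ ρ := fun w hw =>
    hball w (hW3 w hw).1.le (hW3 w hw).2
  have hden : ∀ x y : ℝ, g - 3 * r ≤ x → x + d ≤ y → y ≤ g + (K + 1) * r →
      ∃ a ∈ Wd, x < a ∧ a < y := by
    intro x y h1 h2 h3
    have hx := hball x h1 (by linarith)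
    have hy := hball y (by linarith) h3
    obtain ⟨a, ha, ha1, ha2⟩ := hWt3 x y (by linarith) (by linarith) h2
    refine ⟨a, ?_, ha1, ha2⟩
    rw [hWd]
    exact ⟨ha, by linarith, by linarith⟩
  obtain ⟨S₀, LE, a1, a2, -, a4, -⟩ := Pool.EXTC.lamW_ex (cc hn o.1.1 (n - 1)) s hne
    (H.lam.sub hsub)
  have e0 : g - 3 * r + (K + 4) * r = g + (K + 1) * r := by linarith
  have hΔ : d + 17 / c ^ 2 * d ≤ c * (19 / c ^ 3 * d - d) := by
    have e1 : c * (19 / c ^ 3 * d - d) = 19 / c ^ 2 * d - c * d := by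
      field_simp
    have e2 : c * d ≤ 1 * d := mul_le_mul_of_nonneg_right hc1 hd.le
    have e3 : 8 / c ^ 2 * d = 8 * (1 / c ^ 2 * d) := by ring
    have e4 : 17 / c ^ 2 * d = 17 * (1 / c ^ 2 * d) := by ring
    have e5 : 19 / c ^ 2 * d = 19 * (1 / c ^ 2 * d) := by ring
    have e6 : d ≤ 1 / c ^ 2 * d := by
      have : 1 ≤ 1 / c ^ 2 := by
        rw [le_div_iff₀ (by positivity)]
        nlinarith
      nlinarith
    linarith
  obtain ⟨S₁, b1, b2, b3, b4, b5⟩ := lab_ex H hTop hF hn4 a1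
    (fun τ J F A hA => hsub τ J F A (a2 τ J F A hA)) h' hW1 hW2 hW4 (v₀ := g - 3 * r)
    (R := (K + 4) * r) (hball _ le_rfl (by linarith)) (by
      rw [e0]
      exact hball _ (by linarith) le_rfl) (fun x y h1 h2 h3 => hden x y h1 h2 (by linarith)) hs
    (N := fun w => tl hn P P' o g (n - 1) w - d) a4
    (fun w hw => hN S₀ a1 a2 LE a4 w (hW3 w hw).1 (hW3 w hw).2) hΔ
  have hlaw : ∀ l, 1 ≤ l → l < n - 1 → ∀ w, g - 3 * r ≤ w → w ≤ g + (K + 1) * r →
      |Λ (img (cc hn o.1.1) l) (cc hn o.1.1 l) w 0 - tl hn P P' o g l w| ≤ 8 / c ^ 2 * d :=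
    fun l h1 h2 w h3 h4 => nea_law H hTop hF hn4 h' h1 h2 (hball w h3 h4)
  have htl : ∀ l w, tl hn P P' o g l (g - 2 * r) + slN hn P P' o l g * (w - (g - 2 * r)) =
      tl hn P P' o g l w := by
    intro l w
    unfold tl
    ring
  have hρr : ρ ≤ c / 8 := by
    have h1 := h.ρc
    have h2 : c ^ 2 ≤ c := by nlinarith
    linarith
  have hcg := h.cg
  have hg1 := h.g1
  have hlt : ∀ w, g - 3 * r ≤ w → w ≤ g + (K + 1) * r → |w - g| ≤ ρ := fun w h1 h2 => by
    linarith [hball w h1 h2]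
  have hnum : ∀ j ≤ M, ∀ l ≤ n - 1, |dgN hn P P' o l (g + j * ζ) -
      (tl hn P P' o g l (g - 2 * r) + slN hn P P' o l g * (g + j * ζ - (g - 2 * r)))| ≤
        8 / c ^ 2 * d := by
    intro j hj l hl
    have h1 : (j : ℝ) * ζ ≤ M * ζ := mul_le_mul_of_nonneg_right (by exact_mod_cast hj) hζ0
    have h2 : 0 ≤ (j : ℝ) * ζ := by positivity
    rw [htl]
    exact (h.lin l hl _ (hlt _ (by linarith) (by linarith))).trans hκd
  refine ⟨S₁, Wd, b1, fun τ J F A hA => a2 τ J F A (b2 τ J F A hA), ⟨?_, ?_, ?_, ?_⟩⟩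
  · exact
      { aff := b3
        af2 := b4
        con := fun _ w hw => (hW1 hw).2 _ _
        co2 := fun _ w hw => (hW1 hw).2 _ _
        den := fun x y h1 h2 h3 => hden x y (by linarith) (by linarith) (by linarith)
        g0 := by linarith
        g1 := by linarith
        lin := fun l h1 h2 w _ h3 h4 => by
          rw [htl]
          exact hlaw l h1 h2 w (by linarith) (by linarith)
        slo := fun l h1 h2 => by
          have h3 := (h.slo l h1 h2.le).1
          have h4 := h.slc h1 h2.le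
          have h5 : 1 / c ≤ 1 / (c / 2) := one_div_le_one_div_of_le (by linarith) (by linarith)
          exact ⟨by linarith, by linarith⟩
        sld := fun h3 => by
          have := h.sld 1 2 le_rfl (by omega) (by omega)
          linarith
        dlo := fun l h1 h2 => by
          have := h.tl_lo h1 h2.le (hlt (g - 2 * r) (by linarith) (by linarith))
          linarith
        dhi := fun l h1 h2 => by
          have h3 := h.tl_hi h1 h2.le (hlt (g + K * r) (by linarith) (by linarith))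
          have h4 := htl l (g + K * r)
          have e : g + K * r - (g - 2 * r) = (K + 2) * r := by ring
          rw [e] at h4
          linarith
        gap := fun h3 => by
          have h4 := h.tl_gap (k := 1) (l := 2) le_rfl (by omega) (by omega)
            (hlt (g - 2 * r) (by linarith) (by linarith))
          have h5 := h.slc (l := 1) le_rfl (by omega)
          have h6 : slN hn P P' o 1 g * ((K + 2) * r) ≤ 1 / c * ((K + 2) * r) :=
            mul_le_mul_of_nonneg_right h5 (by positivity)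
          have h7 : 1 / c * ((K + 2) * r) ≤ c / 8 := by
            rw [div_mul_eq_mul_div, one_mul, div_le_iff₀ hc]
            have h8 := h.ρc
            have e : c / 8 * c = c ^ 2 / 8 := by ring
            rw [e]
            linarith
          linarith
        tie := fun h3 w hw _ _ => by
          have h4 := hW4 w hw
          have h5 := nea_up H hTop hF h' (l := 1) le_rfl (by omega) (w := w) (by linarith)
          have h6 := nea_tie H hTop hF h' (by omega) (w := w) (by linarith)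
          rw [img_one] at h5
          have e8 : 4 / c * d = 2 * (2 / c * d) := by ring
          linarith }
  · refine ⟨fun w hw h1 h2 => ?_, ?_, ?_⟩
    · rw [htl]
      refine Pool.EXC33.hasB_le (b5 w hw (hW3 w hw).1.le ?_) (by
        show tl hn P P' o g (n - 1) w - 8 / c ^ 2 * d ≤ tl hn P P' o g (n - 1) w - d
        linarith)
      linarith
    · have h3 := (h.slo (n - 1) (by omega) le_rfl).1
      have h4 := h.slc (l := n - 1) (by omega) le_rfl
      have h5 : 1 / c ≤ 1 / (c / 2) := one_div_le_one_div_of_le (by linarith) (by linarith)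
      exact ⟨by linarith, by linarith⟩
    · have := h.tl_lo (l := n - 1) (by omega) le_rfl (hlt (g - 2 * r) (by linarith)
        (by linarith))
      linarith
  · intro j hj l h1 h2
    exact hnum j hj l h2.le
  · intro j hj
    exact hnum j hj (n - 1) le_rfl

end Pool.OWN72
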