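import Pool.Agent.H72.KE.Lbs
import Pool.Agent.H96.EXT.Num

/-!
# The labels of the base and of the target near a window, in a subclass

`lab_ex`: all labels at the windows of a countable set, in one subclass.
-/

set_option autoImplicit false

namespace Pool.OWN72

open Finset
open Pool.Agent.H49.Ent Pool.Agent.H32.Dense Pool.STK Pool.KA Pool.KSAT Pool.K2S Pool.PB Pool.GEN
open Pool.S6C Pool.GRW Pool.PKG
open Pool.TOP (TopS)
open Pool.CHT
open Pool.MIC6 (ActF)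
open Pool.LA91 (Ful FulC)
open Pool.EXTC (upI exC)
open Pool.PRV (hasA_dns dsH_zero lc_of)

variable {n : ℕ} {hn : 2 ≤ n} {S : PCl n} {P : ℝ → ℝ → ℝ} {rr : ℝ → ℝ}
  {P' : ℕ → List (Fin n) × Fin n → ℝ → ℝ → ℝ} {Λ : Finset (Fin n) → Fin n → ℝ → ℝ → ℝ}

section law

variable {o : Od n} {c g ρ d : ℝ}

/-- The facts at a window of the set. -/
structure Wfa (S : PCl n) (Λ : Finset (Fin n) → Fin n → ℝ → ℝ → ℝ) (cs : ℕ → Fin n) (w : ℝ) :
    Prop where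
  w0 : 0 < w
  w1 : w < 1
  ct : ∀ (I : Finset (Fin n)) (v : Fin n), ContinuousAt (fun w => Λ I v w 0) w
  lo : 1 < n - 1 → w < Λ {cs 0} (cs 1) w 0
  hi : 1 < n - 1 → Λ {cs 0} (cs 1) w 0 < 1
  gr : 1 < n - 1 → ∃ b : ℝ, 0 ≤ b ∧ b < 1 ∧
    Λ {cs 0} (cs 1) w 0 - w < Λ {cs 0} (cs 1) b b - b
  srt : 2 < n - 1 → Λ {cs 0} (cs 1) w 0 ≤ Λ {cs 0, cs 1} (cs 2) w 0
  hi2 : 2 < n - 1 → Λ {cs 0, cs 1} (cs 2) w 0 < 1
  ful : ∀ t : ℝ, w < t → t < 1 → Ful S {cs 0} w t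

theorem wfa_of (H : Pk hn S P rr P' Λ) (hTop : TopS n) (hF : FZX (n - 1)) (hn4 : n ≤ 4)
    (h : Nea hn P P' (Gs P rr P' Λ o) o c g ρ d) {w : ℝ} (hG : w ∈ Gs P rr P' Λ o)
    (hC : w ∈ Ctw Λ) (hw : |w - g| + 8 / c ^ 2 * d ≤ ρ) : Wfa S Λ (cc hn o.1.1) w := by
  have hd := h.d0
  have hc := h.c0
  obtain ⟨t1, t2, t3, t4, t5, t6⟩ := h.two
  have hκ0 : 0 < 2 / c * d * 3 / c := by positivity
  have e8 : 4 / c * d = 2 * (2 / c * d) := by ring
  have hκ1 : 0 < 2 / c * d := by positivity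
  refine ⟨hG.1.1.1, hG.1.1.2.1, hC, fun h2 => ?_, fun h2 => ?_, fun h2 => ?_, fun h2 => ?_,
    fun h2 => ?_, fun t ht _ => gs_ful H hF hG ht.le⟩
  · have hlo := nea_lo1 H hTop hF h h2 (w := w) (by linarith)
    have k1 := h.tl_lo (l := 1) le_rfl h2.le (w := w) (by linarith)
    linarith
  · have hup := nea_up H hTop hF h (l := 1) le_rfl h2 (w := w) (by linarith)
    rw [img_one] at hup
    have k2 := h.tl_hi (l := 1) le_rfl h2.le (w := w) (by linarith)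
    linarith
  · obtain ⟨a₀, a₁, c1, c2, c3, c4⟩ := nea_gro H hTop hF h (W := w) h2 (by linarith)
    exact ⟨a₀, c1, by linarith, by linarith⟩
  · have hup := nea_up H hTop hF h (l := 1) le_rfl (by omega) (w := w) (by linarith)
    have hlo := (abs_le.1 (nea_law H hTop hF hn4 h (l := 2) (by omega) h2 hw)).1
    rw [img_one] at hup
    rw [img_two] at hlo
    have k1 := h.tl_gap (k := 1) (l := 2) le_rfl (by omega) h2 (w := w) (by linarith)
    linarith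
  · have hup := (abs_le.1 (nea_law H hTop hF hn4 h (l := 2) (by omega) h2 hw)).2
    rw [img_two] at hup
    have k1 := h.tl_hi (l := 2) (by omega) h2.le (w := w) (by linarith)
    linarith

theorem img_e1 {m k : ℕ} (c : ℕ → Fin m) (h : k = 1) : img c k = {c 0} := by
  subst h
  exact img_one c

theorem img_e2 {m k : ℕ} (c : ℕ → Fin m) (h : k = 2) : img c k = {c 0, c 1} := by
  subst h
  exact img_two c

theorem img_e3 {m k : ℕ} (c : ℕ → Fin m) (h : k = 3) : img c k = {c 0, c 1, c 2} := by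
  subst h
  exact img_three c

/-- **All labels near a window**, in a subclass. -/
theorem lab_ex (H : Pk hn S P rr P' Λ) (hTop : TopS n) (hF : FZX (n - 1)) (hn4 : n ≤ 4)
    {S' : PCl n} (hne : S'.Ne)
    (hsub : ∀ (τ : ℝ) (J : ℕ) (F : Fam n J) (A : F.Ω → Prop), S'.St τ J F A → S.St τ J F A)
    (h : Nea hn P P' (Gs P rr P' Λ o) o c g ρ d) {Wd : Set ℝ}
    (hWd : Wd ⊆ Gs P rr P' Λ o ∩ Ctw Λ) (hcn : Wd.Countable)
    (hball : ∀ w ∈ Wd, |w - g| + 8 / c ^ 2 * d ≤ ρ) {v₀ R : ℝ}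
    (hv : |v₀ - g| + 8 / c ^ 2 * d ≤ ρ) (hvR : |v₀ + R - g| + 8 / c ^ 2 * d ≤ ρ)
    (hden : ∀ x y : ℝ, v₀ ≤ x → x + d ≤ y → y ≤ v₀ + R → ∃ a ∈ Wd, x < a ∧ a < y)
    {s : ℝ} (hs : 0 ≤ s) {N : ℝ → ℝ} {LE : Finset (Fin (n + 1)) → Fin (n + 1) → ℝ → ℝ → ℝ}
    (hLE : LamW (exC S' (cc hn o.1.1 (n - 1)) s) LE)
    (hN : ∀ w ∈ Wd, ∀ ε : ℝ, 0 < ε → ∃ W' r' : ℝ, W' < w ∧ r' < 1 ∧
      N w + s ≤ LE (upI (img (cc hn o.1.1) (n - 1))) (Fin.last n) W' r' + ε)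
    {Δ : ℝ} (hΔ : d + 17 / c ^ 2 * d ≤ c * (Δ - d)) :
    ∃ S₁ : PCl n, S₁.Ne ∧
      (∀ (τ : ℝ) (J : ℕ) (F : Fam n J) (A : F.Ω → Prop), S₁.St τ J F A → S'.St τ J F A) ∧
      AfE S₁ Λ (cc hn o.1.1) (n - 1) Wd ∧
      (3 ≤ n - 1 → ∀ w ∈ Wd, HasA S₁ {cc hn o.1.1 0} (cc hn o.1.1 2) w
        (Λ {cc hn o.1.1 0} (cc hn o.1.1 2) w 0)) ∧
      ∀ w ∈ Wd, v₀ ≤ w → w + 2 * Δ ≤ v₀ + R →
        HasB S₁ (img (cc hn o.1.1) (n - 1)) (cc hn o.1.1 (n - 1)) w (N w) s := by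
  have hL' : LamW S' Λ := H.lam.sub hsub
  have htm' : TmC S' 6 := fun τ J F A hτ hA => H.tmc τ J F A hτ (hsub τ J F A hA)
  have hact' : ActF S' (cc hn o.1.1 0) := ActF.subc hsub (gs_act H o)
  have hG : Wd ⊆ Gs P rr P' Λ o := fun w hw => (hWd hw).1
  have hfa : ∀ w ∈ Wd, Wfa S Λ (cc hn o.1.1) w := fun w hw =>
    wfa_of H hTop hF hn4 h (hWd hw).1 (hWd hw).2 (hball w hw)
  have hne01 : 1 < n - 1 → cc hn o.1.1 0 ≠ cc hn o.1.1 1 := fun h2 h => by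
    have := cc_inj' hn o.1.1 (i := 0) (j := 1) (by omega) (by omega) h
    omega
  have hds : ∀ w ∈ Wd, ∀ v : Fin n, Pool.PRV.DsH Λ (cc hn o.1.1 0) v w
      (Λ {cc hn o.1.1 0} v w 0) := fun w hw v =>
    dsH_zero hL' (hfa w hw).w1.le (lc_of (hfa w hw).w0 ((hfa w hw).ct _ _))
  -- the labels of the base
  obtain ⟨Sa, a1, a2, -, a4, a5, -, -, a8, a9, -⟩ := hasA_dns hne (C₀ := 6) (by norm_num) htm' hL'
    hcn (fun _ : Unit => cc hn o.1.1 (n - 1)) (fun _ => s) (fun _ => hs) (fun _ => LE)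
    (fun _ => hLE)
  have hsuba : ∀ (τ : ℝ) (J : ℕ) (F : Fam n J) (A : F.Ω → Prop), Sa.St τ J F A → S.St τ J F A :=
    fun τ J F A hA => hsub τ J F A (a2 τ J F A hA)
  have hlab : ∀ w ∈ Wd, ∀ l, 1 ≤ l → l < n - 1 → HasA Sa (img (cc hn o.1.1) l)
      (cc hn o.1.1 l) w (Λ (img (cc hn o.1.1) l) (cc hn o.1.1 l) w 0) := by
    intro w hw l h1 h2
    have hf := hfa w hw
    have h3 : l = 1 ∨ l = 2 := by omega
    rcases h3 with rfl | rfl
    · rw [img_one]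
      exact a4 _ _ _ _ hw hact' hf.w0 hf.w1 (hds w hw _)
    · rw [img_two]
      refine a5 _ _ _ _ _ hw hact' (hne01 (by omega)) hf.w0 (hf.ct _ _) (hf.lo (by omega))
        (hf.hi (by omega)) (hf.gr (by omega)) fun ε hε => ?_
      obtain ⟨W', b1, b2, b3⟩ := lc_of hf.w0 (hf.ct {cc hn o.1.1 0, cc hn o.1.1 1}
        (cc hn o.1.1 2)) ε hε
      exact ⟨W', 0, b2, b3⟩
  have haf := afe_of H hTop hF hn4 h hsuba hG hball hlab
  have haf2 : 3 ≤ n - 1 → ∀ w ∈ Wd, HasA Sa {cc hn o.1.1 0} (cc hn o.1.1 2) w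
      (Λ {cc hn o.1.1 0} (cc hn o.1.1 2) w 0) := fun _ w hw =>
    a4 _ _ _ _ hw hact' (hfa w hw).w0 (hfa w hw).w1 (hds w hw _)
  have hn3 : n = 2 ∨ n = 3 ∨ n = 4 := by omega
  rcases hn3 with h2 | h2 | h2
  · refine ⟨Sa, a1, a2, haf, haf2, fun w hw _ _ => ?_⟩
    have hf := hfa w hw
    have e1 : img (cc hn o.1.1) (n - 1) = {cc hn o.1.1 0} := by
      exact img_e1 _ (by omega)
    rw [e1] at hN ⊢
    have h3 := a8 () (cc hn o.1.1 0) w (N w + s) hw hact' hf.w0 hf.w1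
      (fun t ht ht1 => (hf.ful t ht ht1).sub hsub) fun ε hε => by
        obtain ⟨W', r', b1, b2, b3⟩ := hN w hw ε hε
        exact ⟨W', r', b1, b3⟩
    rw [add_sub_cancel_right] at h3
    exact h3
  · refine ⟨Sa, a1, a2, haf, haf2, fun w hw _ _ => ?_⟩
    have hf := hfa w hw
    have e1 : img (cc hn o.1.1) (n - 1) = {cc hn o.1.1 0, cc hn o.1.1 1} := by
      exact img_e2 _ (by omega)
    rw [e1] at hN ⊢
    have h3 := a9 () (cc hn o.1.1 0) (cc hn o.1.1 1) w (N w + s) hw hact' (hne01 (by omega))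
      hf.w0 (hf.ct _ _) (hf.lo (by omega)) (hf.hi (by omega)) (hf.gr (by omega)) fun ε hε => by
        obtain ⟨W', r', b1, b2, b3⟩ := hN w hw ε hε
        exact ⟨W', r', b1, b3⟩
    rw [add_sub_cancel_right] at h3
    exact h3
  · have htma : TmC Sa 6 := fun τ J F A hτ hA => H.tmc τ J F A hτ (hsuba τ J F A hA)
    have hLa : LamW Sa Λ := H.lam.sub hsuba
    have hacta : ActF Sa (cc hn o.1.1 0) := ActF.subc hsuba (gs_act H o)
    have hLEa : LamW (exC Sa (cc hn o.1.1 (n - 1)) s) LE :=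
      hLE.sub (Pool.EXTC.exC_mono a2)
    obtain ⟨S₁, b1, b2, -, -, -, -, -, -, -, b10⟩ := hasA_dns a1 (C₀ := 6) (by norm_num) htma hLa
      hcn (fun _ : Unit => cc hn o.1.1 (n - 1)) (fun _ => s) (fun _ => hs) (fun _ => LE)
      (fun _ => hLEa)
    have hd := h.d0
    have hgrf := grf_of H hTop hF hn4 h hv hvR hden hΔ hd.le
    have hΔ0 : 0 < Δ := by
      have hc := h.c0
      have h3 : 0 < c * (Δ - d) := by
        have : 0 < 17 / c ^ 2 * d := by positivity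
        linarith
      have := pos_of_mul_pos_right h3 hc.le
      linarith
    have hrep : ∀ l, 1 ≤ l → l < n - 1 → ∀ w, v₀ ≤ w → w + 2 * Δ ≤ v₀ + R →
        RepP Sa (cc hn o.1.1 0) (img (cc hn o.1.1) l) (cc hn o.1.1 l) w
          (Λ (img (cc hn o.1.1) l) (cc hn o.1.1 l) w 0) (d / 2) := by
      intro l h3 h4 w h5 h6
      have hl2 : (l : ℝ) ≤ 2 := by
        have : l ≤ 2 := by omega
        exact_mod_cast this
      refine rep_alF htma hLa haf (κ := d / 8) (by linarith) hgrf l h3 h4 w h5 ?_ hΔ0 (d / 2)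
        (by linarith) ?_
      · have : (l : ℝ) * Δ ≤ 2 * Δ := mul_le_mul_of_nonneg_right hl2 hΔ0.le
        linarith
      · have : (l : ℝ) * (d / 8) ≤ 2 * (d / 8) := mul_le_mul_of_nonneg_right hl2 (by linarith)
        linarith
    refine ⟨S₁, b1, fun τ J F A hA => a2 τ J F A (b2 τ J F A hA), ?_, fun h3 w hw =>
      HasA.subc b2 (haf2 h3 w hw), fun w hw h5 h6 => ?_⟩
    · exact haf.subc b2 (ActF.subc b2 hacta)
    have hf := hfa w hw
    have e1 : img (cc hn o.1.1) (n - 1) = {cc hn o.1.1 0, cc hn o.1.1 1, cc hn o.1.1 2} := by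
      exact img_e3 _ (by omega)
    have hA1 := hlab w hw 1 le_rfl (by omega)
    have hA2 := hlab w hw 2 (by omega) (by omega)
    have hR1 := hrep 1 le_rfl (by omega) w h5 h6
    have hR2 := hrep 2 (by omega) (by omega) w h5 h6
    obtain ⟨σ, hσ⟩ : ∃ σ : ℕ → ℝ, σ = fun l => Λ (img (cc hn o.1.1) l) (cc hn o.1.1 l) w 0 :=
      ⟨_, rfl⟩
    have hfc : FulC S (cc hn o.1.1) 1 (n - 1) w σ :=
      gs_fulC H hTop hF hn4 h (hWd hw).1 (hWd hw).2 (hball w hw) fun l _ _ => by rw [hσ]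
    have e3 : n - 1 = 3 := by omega
    have hfc3 : FulC S (cc hn o.1.1) 1 3 w σ := by
      have key : ∀ k : ℕ, k = 3 → FulC S (cc hn o.1.1) 1 k w σ →
        FulC S (cc hn o.1.1) 1 3 w σ := by
        rintro k rfl h
        exact h
      exact key _ e3 hfc
    have hs1 : σ 1 = Λ {cc hn o.1.1 0} (cc hn o.1.1 1) w 0 := by rw [hσ, ← img_one]
    have hs2 : σ 2 = Λ {cc hn o.1.1 0, cc hn o.1.1 1} (cc hn o.1.1 2) w 0 := by
      rw [hσ, ← img_two]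
    rw [img_one] at hA1 hR1
    rw [img_two] at hA2 hR2
    rw [e1] at hN ⊢
    have hinj : Set.InjOn (cc hn o.1.1) (Set.Iio 3) := (cc_inj3 (hn := hn) o).mono fun x hx => by
      rw [Set.mem_Iio] at hx ⊢
      omega
    have h3 := b10 () (cc hn o.1.1) w (N w + s) σ (d / 2) hw hinj hacta hf.w0 (hf.ct _ _)
      (hf.lo (by omega)) (hf.srt (by omega)) (hf.hi2 (by omega)) hs1 hs2
      (fun t ht ht1 => (hf.ful t ht ht1).sub hsuba) (hfc3.sub hsuba) hA1 hA2 (by linarith) hR1 hR2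
      (hN w hw)
    rw [add_sub_cancel_right] at h3
    exact h3

end law

end Pool.OWN72
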